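import Mathlib
import Pool.Agent.Helper26.AG.Olap

/-!
# Additive growth: definitions

`Tor` is the circle, `idx K x` the index of the dyadic cell of length `2 ^ (-K)` containing `x`,
`ent μ K` the entropy of `μ` on these cells, `conv μ ν` the convolution, `Inv μ` invariance under
multiplication by 2 and 3.  The relation `Pop μ h t r` (some self coupling of `μ` gives mass at
least `h` to the pairs `(x, y)` with `y - x` within `r` of `t`) is in `Helper26/AG/Olap.lean`.
-/

set_option autoImplicit false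
open MeasureTheory Filter Topology

namespace Helper35.AG

export Helper26.AG (Tor Pop)

/-- index of the dyadic cell of length `2 ^ (-K)` -/
noncomputable def idx (K : ℕ) (x : Tor) : ℕ :=
  ⌊(2 : ℝ) ^ K * (AddCircle.equivIco (1 : ℝ) 0 x : ℝ)⌋₊

/-- entropy of the partition into dyadic cells of length `2 ^ (-K)`, natural logarithm -/
noncomputable def ent (μ : Measure Tor) (K : ℕ) : ℝ :=
  ∑ i ∈ Finset.range (2 ^ K), Real.negMulLog (μ.real {x | idx K x = i})

/-- convolution -/
noncomputable def conv (μ ν : Measure Tor) : Measure Tor :=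
  (μ.prod ν).map fun p => p.1 + p.2

/-- invariance under multiplication by 2 and 3 -/
structure Inv (μ : Measure Tor) : Prop where
  two : MeasurePreserving (fun x : Tor => (2 : ℕ) • x) μ μ
  three : MeasurePreserving (fun x : Tor => (3 : ℕ) • x) μ μ

/-! ### dyadic cells -/

theorem measurable_idx (K : ℕ) : Measurable (idx K) := by
  unfold idx
  refine Nat.measurable_floor.comp (measurable_const.mul ?_)
  exact measurable_subtype_coe.comp (AddCircle.measurableEquivIco (1 : ℝ) 0).measurable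

theorem measurableSet_idx (K i : ℕ) : MeasurableSet {x : Tor | idx K x = i} :=
  measurable_idx K (measurableSet_singleton i)

theorem exists_rep (x : Tor) : ∃ u : ℝ, 0 ≤ u ∧ u < 1 ∧ (u : Tor) = x ∧
    ∀ K, idx K x = ⌊(2 : ℝ) ^ K * u⌋₊ := by
  refine ⟨(AddCircle.equivIco (1 : ℝ) 0 x : ℝ), ?_, ?_, ?_, fun K => rfl⟩
  · exact (AddCircle.equivIco (1 : ℝ) 0 x).2.1
  · have := (AddCircle.equivIco (1 : ℝ) 0 x).2.2
    simpa using this
  · exact AddCircle.coe_equivIco

theorem idx_coe (K : ℕ) {u : ℝ} (h0 : 0 ≤ u) (h1 : u < 1) :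
    idx K (u : Tor) = ⌊(2 : ℝ) ^ K * u⌋₊ := by
  unfold idx
  have h := AddCircle.coe_equivIco_mk_apply (p := (1 : ℝ)) u
  rw [div_one, mul_one, Int.fract_eq_self.2 ⟨h0, h1⟩] at h
  rw [h]

theorem idx_lt (K : ℕ) (x : Tor) : idx K x < 2 ^ K := by
  obtain ⟨u, h0, h1, -, h⟩ := exists_rep x
  rw [h K]
  have h2 : (0 : ℝ) < 2 ^ K := by positivity
  rw [Nat.floor_lt (by positivity)]
  push_cast
  nlinarith

theorem norm_sub_le_of_idx {K : ℕ} {x y : Tor} (h : idx K x = idx K y) :
    ‖x - y‖ ≤ 1 / 2 ^ K := by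
  obtain ⟨u, hu0, hu1, rfl, hu⟩ := exists_rep x
  obtain ⟨v, hv0, hv1, rfl, hv⟩ := exists_rep y
  rw [hu K, hv K] at h
  have h2 : (0 : ℝ) < 2 ^ K := by positivity
  have a1 := Nat.floor_le (a := (2 : ℝ) ^ K * u) (by positivity)
  have a2 := Nat.lt_floor_add_one ((2 : ℝ) ^ K * u)
  have b1 := Nat.floor_le (a := (2 : ℝ) ^ K * v) (by positivity)
  have b2 := Nat.lt_floor_add_one ((2 : ℝ) ^ K * v)
  rw [h] at a1 a2
  have h3 : |u - v| ≤ 1 / 2 ^ K := by
    rw [le_div_iff₀ h2, ← abs_of_pos h2, ← abs_mul, abs_le]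
    constructor <;> nlinarith
  rw [← AddCircle.coe_sub]
  refine le_trans ?_ h3
  rw [AddCircle.norm_eq]
  simp only [inv_one, one_mul, mul_one]
  exact (round_le (u - v) 0).trans (by simp)

/-- the cell of `x + y` is determined by the cell of `x` up to two choices -/
theorem idx_add (K : ℕ) (x y : Tor) :
    idx K (x + y) = (idx K x + idx K y) % 2 ^ K ∨
      idx K (x + y) = (idx K x + idx K y + 1) % 2 ^ K := by
  obtain ⟨u, hu0, hu1, rfl, hu⟩ := exists_rep x
  obtain ⟨v, hv0, hv1, rfl, hv⟩ := exists_rep y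
  rw [hu K, hv K]
  have h2 : (0 : ℝ) < 2 ^ K := by positivity
  set i := ⌊(2 : ℝ) ^ K * u⌋₊ with hi
  set j := ⌊(2 : ℝ) ^ K * v⌋₊ with hj
  have a1 : (i : ℝ) ≤ 2 ^ K * u := Nat.floor_le (by positivity)
  have a2 : (2 : ℝ) ^ K * u < i + 1 := Nat.lt_floor_add_one _
  have b1 : (j : ℝ) ≤ 2 ^ K * v := Nat.floor_le (by positivity)
  have b2 : (2 : ℝ) ^ K * v < j + 1 := Nat.lt_floor_add_one _
  have key : ∃ w : ℝ, 0 ≤ w ∧ w < 1 ∧ (w : Tor) = (u : Tor) + v ∧ ∃ e : ℕ,
      w = u + v - e := by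
    by_cases h : u + v < 1
    · exact ⟨u + v, by positivity, h, by rw [AddCircle.coe_add], 0, by simp⟩
    · refine ⟨u + v - 1, by linarith, by linarith, ?_, 1, by simp⟩
      rw [AddCircle.coe_sub, AddCircle.coe_add]
      have : ((1 : ℝ) : Tor) = 0 := AddCircle.coe_period 1
      rw [this, sub_zero]
  obtain ⟨w, hw0, hw1, hw, e, he⟩ := key
  rw [← hw, idx_coe K hw0 hw1]
  set k := ⌊(2 : ℝ) ^ K * w⌋₊ with hk
  have c1 : (k : ℝ) ≤ 2 ^ K * w := Nat.floor_le (by positivity)
  have c2 : (2 : ℝ) ^ K * w < k + 1 := Nat.lt_floor_add_one _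
  have hklt : k < 2 ^ K := by
    rw [hk, Nat.floor_lt (by positivity)]
    push_cast
    nlinarith
  have d1 : ((k + 2 ^ K * e : ℕ) : ℝ) < i + j + 2 := by
    push_cast
    rw [he] at c1
    nlinarith
  have d2 : ((i + j : ℕ) : ℝ) < ((k + 2 ^ K * e + 1 : ℕ) : ℝ) := by
    push_cast
    rw [he] at c2
    nlinarith
  have e1 : k + 2 ^ K * e < i + j + 2 := by exact_mod_cast d1
  have e2 : i + j < k + 2 ^ K * e + 1 := by exact_mod_cast d2
  have e3 : k + 2 ^ K * e = i + j ∨ k + 2 ^ K * e = i + j + 1 := by omega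
  rcases e3 with e3 | e3
  · left
    rw [← e3, Nat.add_mul_mod_self_left, Nat.mod_eq_of_lt hklt]
  · right
    rw [← e3, Nat.add_mul_mod_self_left, Nat.mod_eq_of_lt hklt]

theorem sum_cells (μ : Measure Tor) [IsProbabilityMeasure μ] (K : ℕ) :
    ∑ i ∈ Finset.range (2 ^ K), μ.real {x | idx K x = i} = 1 := by
  rw [← measureReal_biUnion_finset]
  · have : (⋃ i ∈ Finset.range (2 ^ K), {x : Tor | idx K x = i}) = Set.univ := by
      rw [Set.eq_univ_iff_forall]
      intro x
      rw [Set.mem_iUnion₂]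
      exact ⟨idx K x, Finset.mem_range.2 (idx_lt K x), rfl⟩
    rw [this]
    exact probReal_univ
  · intro i _ j _ hij
    refine Set.disjoint_left.2 fun x hx hx' => hij ?_
    exact hx.symm.trans hx'
  · exact fun i _ => measurableSet_idx K i

instance conv_prob (μ ν : Measure Tor) [IsProbabilityMeasure μ] [IsProbabilityMeasure ν] :
    IsProbabilityMeasure (conv μ ν) :=
  Measure.isProbabilityMeasure_map (by fun_prop)

theorem measurable_real (μ : Measure Tor) [IsProbabilityMeasure μ] {A : Set Tor}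
    (hA : MeasurableSet A) : Measurable fun y : Tor => μ.real {x | x + y ∈ A} := by
  have hm : Measurable fun p : Tor × Tor => p.1 + p.2 := by fun_prop
  have h := measurable_measure_prodMk_right (μ := μ) (hm hA)
  exact h.ennreal_toReal

/-- the mass of a cell for a convolution -/
theorem conv_real (μ ν : Measure Tor) [IsProbabilityMeasure μ] [IsProbabilityMeasure ν]
    {A : Set Tor} (hA : MeasurableSet A) :
    (conv μ ν).real A = ∫ y, μ.real {x | x + y ∈ A} ∂ν := by
  have hm : Measurable fun p : Tor × Tor => p.1 + p.2 := by fun_prop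
  have h1 : conv μ ν A = ∫⁻ y, μ {x | x + y ∈ A} ∂ν := by
    unfold conv
    rw [Measure.map_apply hm hA, Measure.prod_apply_symm (hm hA)]
    rfl
  rw [measureReal_def, h1, integral_eq_lintegral_of_nonneg_ae
    (Eventually.of_forall fun y => measureReal_nonneg)
    (measurable_real μ hA).aestronglyMeasurable]
  congr 1
  refine lintegral_congr fun y => ?_
  rw [measureReal_def, ENNReal.ofReal_toReal (measure_ne_top _ _)]

end Helper35.AG
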