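import Mathlib
import Pool.Agent.Helper17.Herglotz
import Pool.Agent.Helper40.TMA.Exotic
import Pool.Agent.Helper35.AG.Basic

/-!
# The measure of a trace, and neighbourhoods of the regular trace
-/

set_option autoImplicit false

open MeasureTheory Filter Topology Finset Helper17.FU Helper17.FUGroup Helper91.TTT
open scoped ENNReal ComplexConjugate ComplexOrder InnerProductSpace

namespace Helper35.AG

variable {s2 s3 t : Equiv.Perm ℚ}

/-- The measure of a trace. -/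
theorem exists_measure (h2 : ∀ x : ℚ, s2 x = 2 * x) (h3 : ∀ x : ℚ, s3 x = 3 * x)
    (ht : ∀ x : ℚ, t x = x + 1) {τ : GG s2 s3 t} (hτ : (τ : Equiv.Perm ℚ) = t)
    {φ : GG s2 s3 t → ℂ} (hφ : φ ∈ TR (GG s2 s3 t)) :
    ∃ μ : Measure Tor, IsProbabilityMeasure μ ∧
      (∀ n : ℤ, ∫ x, (fourier n x : ℂ) ∂μ = φ (τ ^ n)) ∧ Inv μ := by
  have hφ1 : φ 1 = 1 := hφ.1
  have hφc := hφ.2.1
  have hFφ : Fact (PD φ) := ⟨hφ.2.2⟩
  obtain ⟨σ2, σ3, τ', hσ2, hσ3, hτ', e2, e3, ecomm, hgen⟩ := relations h2 h3 ht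
  have hττ' : τ' = τ := Subtype.ext (by rw [hτ', hτ])
  rw [hττ'] at e2 e3 hgen
  -- the measure
  obtain ⟨μ, hμp, hμ⟩ := Helper17.Herglotz.herglotz (rf_pdz (φ := φ) τ 1)
    (by unfold rf; simp [hφ1])
  have hμ' : ∀ n : ℤ, ∫ x, (fourier n x : ℂ) ∂μ = φ (τ ^ n) := by
    intro n
    rw [hμ n]; unfold rf; rw [one_mul]
  have hinv : ∀ N : ℕ, (∀ j : ℤ, φ (τ ^ ((N : ℤ) * j)) = φ (τ ^ j)) →
      MeasurePreserving (Helper17.TranslM.T N) μ μ := by
    intro N hN
    refine ⟨Helper17.TranslM.measurable_T N, ?_⟩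
    have hp : IsProbabilityMeasure (μ.map (Helper17.TranslM.T N)) :=
      Measure.isProbabilityMeasure_map (Helper17.TranslM.measurable_T N).aemeasurable
    apply Helper17.TranslM.eq_of_fourier
    intro m
    rw [integral_map (Helper17.TranslM.measurable_T N).aemeasurable
      (fourier m).continuous.aestronglyMeasurable, hμ' m, ← hN m, ← hμ']
    refine integral_congr_ae (Eventually.of_forall fun x => ?_)
    simp only [Helper17.TranslM.T, fourier_apply]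
    congr 1
    congr 1
    rw [← natCast_zsmul, smul_smul, mul_comm]
  have hm2 : MeasurePreserving (fun x : AddCircle (1 : ℝ) => (2 : ℕ) • x) μ μ := by
    apply hinv 2
    intro j
    have := Helper17.FU.conj_pow e2 j
    rw [show ((2 : ℕ) : ℤ) * j = 2 * j by norm_num]
    rw [← this, hφc]
  have hm3 : MeasurePreserving (fun x : AddCircle (1 : ℝ) => (3 : ℕ) • x) μ μ := by
    apply hinv 3
    intro j
    have := conj_pow3 e3 j
    rw [show ((3 : ℕ) : ℤ) * j = 3 * j by norm_num]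
    rw [← this, hφc]
  exact ⟨μ, hμp, hμ', hm2, hm3⟩

/-- uniqueness of the measure of a trace; invariance of the measure of a trace -/
theorem inv_of_trace (h2 : ∀ x : ℚ, s2 x = 2 * x) (h3 : ∀ x : ℚ, s3 x = 3 * x)
    (ht : ∀ x : ℚ, t x = x + 1) {τ : GG s2 s3 t} (hτ : (τ : Equiv.Perm ℚ) = t)
    {φ : GG s2 s3 t → ℂ} (hφ : φ ∈ TR (GG s2 s3 t)) {μ : Measure Tor} [IsProbabilityMeasure μ]
    (hμ : ∀ n : ℤ, ∫ x, (fourier n x : ℂ) ∂μ = φ (τ ^ n)) : Inv μ := by
  obtain ⟨μ', hμ'p, hμ', hi⟩ := exists_measure h2 h3 ht hτ hφ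
  have h5 : μ = μ' := by
    apply Helper17.TranslM.eq_of_fourier
    intro m
    rw [hμ' m]
    exact hμ m
  rw [h5]
  exact hi

/-- the set of traces is compact -/
theorem isCompact_TR {H : Type*} [Group H] : IsCompact (TR H) := by
  have hsub : TR H ⊆ Set.pi Set.univ fun _ : H => Metric.closedBall (0 : ℂ) 1 := by
    intro φ hφ g _
    have hφ1 : φ 1 = 1 := hφ.1
    have hFφ : Fact (PD φ) := ⟨hφ.2.2⟩
    rw [mem_closedBall_zero_iff]
    have h1 := norm_inner_le_norm (𝕜 := ℂ) (dl φ 1) (dl φ g)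
    rw [inner_dl, norm_dl hφ1, norm_dl hφ1, inv_one, one_mul, mul_one] at h1
    exact h1
  have hcl : IsClosed (TR H) := by
    have e : TR H = {ψ : H → ℂ | ψ 1 = 1} ∩ ((⋂ g : H, ⋂ h : H, {ψ : H → ℂ |
        ψ (h * g * h⁻¹) = ψ g}) ∩ ⋂ s : Finset H, ⋂ c : H → ℂ, {ψ : H → ℂ |
        0 ≤ ∑ i ∈ s, ∑ j ∈ s, star (c j) * c i * ψ (j⁻¹ * i)}) := by
      ext ψ
      simp only [TR, Set.mem_setOf_eq, Set.mem_inter_iff, Set.mem_iInter]
    rw [e]
    refine (isClosed_eq (continuous_apply _) continuous_const).inter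
      (IsClosed.inter ?_ ?_)
    · exact isClosed_iInter fun g => isClosed_iInter fun h =>
        isClosed_eq (continuous_apply _) (continuous_apply _)
    · refine isClosed_iInter fun s => isClosed_iInter fun c => ?_
      refine isClosed_le continuous_const ?_
      fun_prop
  exact (isCompact_univ_pi fun _ => isCompact_closedBall _ _).of_isClosed_subset hcl hsub

/-- a trace with small coefficients is near the regular one -/
theorem exists_near (h2 : ∀ x : ℚ, s2 x = 2 * x) (h3 : ∀ x : ℚ, s3 x = 3 * x)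
    (ht : ∀ x : ℚ, t x = x + 1) {τ : GG s2 s3 t} (hτ : (τ : Equiv.Perm ℚ) = t)
    {U : Set (GG s2 s3 t → ℂ)}
    (hU : U ∈ 𝓝 (Set.indicator ({1} : Set (GG s2 s3 t)) (fun _ => (1 : ℂ)))) :
    ∃ n : ℕ, ∀ φ ∈ TR (GG s2 s3 t), (∀ m : ℕ, 1 ≤ m → m ≤ n → ‖φ (τ ^ m)‖ ≤ 1 / (n + 1)) →
      φ ∈ U := by
  set V : ℕ → Set (GG s2 s3 t → ℂ) := fun n => {φ | φ ∈ TR (GG s2 s3 t) ∧
    ∀ m : ℕ, 1 ≤ m → m ≤ n → ‖φ (τ ^ m)‖ ≤ 1 / (n + 1)} with hV
  have hanti : Antitone V := by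
    intro n n' hn φ hφ
    refine ⟨hφ.1, fun m hm hm' => (hφ.2 m hm (hm'.trans hn)).trans ?_⟩
    gcongr
  have hclosed : ∀ n, IsClosed (V n) := by
    intro n
    have e : V n = TR (GG s2 s3 t) ∩ ⋂ m : ℕ, ⋂ _ : 1 ≤ m, ⋂ _ : m ≤ n,
        {φ : GG s2 s3 t → ℂ | ‖φ (τ ^ m)‖ ≤ 1 / ((n : ℝ) + 1)} := by
      ext φ
      simp only [hV, Set.mem_setOf_eq, Set.mem_inter_iff, Set.mem_iInter]
    rw [e]
    refine isCompact_TR.isClosed.inter (isClosed_iInter fun m => isClosed_iInter fun _ =>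
      isClosed_iInter fun _ => isClosed_le ?_ continuous_const)
    exact (continuous_apply _).norm
  have hcpt : ∀ n, IsCompact (V n) := fun n =>
    isCompact_TR.of_isClosed_subset (hclosed n) fun φ hφ => hφ.1
  obtain ⟨n, hn⟩ := exists_subset_nhds_of_isCompact' (V := V) (U := U)
    hanti.directed_ge hcpt hclosed (by
      intro φ hφ
      have hφ' : ∀ n, φ ∈ V n := Set.mem_iInter.1 hφ
      have hz : ∀ m : ℕ, 1 ≤ m → φ (τ ^ m) = 0 := by
        intro m hm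
        rw [← norm_eq_zero]
        refine le_antisymm ?_ (norm_nonneg _)
        refine ge_of_tendsto (tendsto_one_div_add_atTop_nhds_zero_nat (𝕜 := ℝ))
          (eventually_atTop.2 ⟨m, fun n hn => (hφ' n).2 m hm hn⟩)
      have hz' : ∀ m : ℤ, m ≠ 0 → φ (τ ^ m) = 0 := by
        intro m hm
        rcases lt_or_gt_of_ne hm with h | h
        · have h5 := hz (-m).toNat (by omega)
          rw [← zpow_natCast, show (((-m).toNat : ℕ) : ℤ) = -m by omega, zpow_neg,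
            pd_herm (hφ' 0).1.2.2] at h5
          simpa using h5
        · have h5 := hz m.toNat (by omega)
          rwa [← zpow_natCast, show ((m.toNat : ℕ) : ℤ) = m by omega] at h5
      rw [eq_indicator h2 h3 ht φ (hφ' 0).1 τ hτ hz']
      exact hU)
  exact ⟨n, fun φ hφ h => hn ⟨hφ, h⟩⟩

/-- the powers of `τ` are not trivial -/
theorem pow_ne_one (ht : ∀ x : ℚ, t x = x + 1) {τ : GG s2 s3 t} (hτ : (τ : Equiv.Perm ℚ) = t)
    {m : ℕ} (hm : 1 ≤ m) : τ ^ m ≠ 1 := by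
  intro h
  have h1 : (t ^ (m : ℤ)) 0 = 0 := by
    have := congrArg (fun g : GG s2 s3 t => (g : Equiv.Perm ℚ) 0) h
    simpa [hτ] using this
  rw [t_zpow ht, zero_add] at h1
  have : m = 0 := by exact_mod_cast h1
  omega

/-- traces with small coefficients form a neighbourhood of the regular one -/
theorem near_mem (ht : ∀ x : ℚ, t x = x + 1) {τ : GG s2 s3 t} (hτ : (τ : Equiv.Perm ℚ) = t)
    (n : ℕ) {ε : ℝ} (hε : 0 < ε) :
    {φ : GG s2 s3 t → ℂ | ∀ m : ℕ, 1 ≤ m → m ≤ n → ‖φ (τ ^ m)‖ < ε} ∈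
      𝓝 (Set.indicator ({1} : Set (GG s2 s3 t)) (fun _ => (1 : ℂ))) := by
  have e : {φ : GG s2 s3 t → ℂ | ∀ m : ℕ, 1 ≤ m → m ≤ n → ‖φ (τ ^ m)‖ < ε} =
      ⋂ m ∈ Finset.Icc 1 n, {φ : GG s2 s3 t → ℂ | ‖φ (τ ^ m)‖ < ε} := by
    ext φ
    simp only [Set.mem_setOf_eq, Set.mem_iInter, Finset.mem_Icc, and_imp]
  rw [e, Filter.biInter_finset_mem]
  intro m hm
  rw [Finset.mem_Icc] at hm
  refine IsOpen.mem_nhds (isOpen_lt (continuous_apply _).norm continuous_const) ?_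
  rw [Set.mem_setOf_eq, Set.indicator_of_notMem (by simpa using pow_ne_one ht hτ hm.1)]
  simpa using hε

end Helper35.AG
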