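import Mathlib
import Pool.Agent.Helper35.AG.Basic

/-!
# Dyadic arcs as images of intervals
-/

set_option autoImplicit false

open MeasureTheory Filter Topology Finset

namespace Helper35.AG

/-- the arc `[i / 2 ^ K, (i + 1) / 2 ^ K)` of the circle -/
def arc (K i : ℕ) : Set Tor :=
  (fun t : ℝ => (t : Tor)) '' Set.Ico ((i : ℝ) / 2 ^ K) ((i + 1) / 2 ^ K)

theorem arc_eq {K i : ℕ} (hi : i < 2 ^ K) : arc K i = {x : Tor | idx K x = i} := by
  have h2 : (0 : ℝ) < 2 ^ K := by positivity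
  have hi' : ((i : ℝ) + 1) ≤ 2 ^ K := by exact_mod_cast hi
  ext x
  constructor
  · rintro ⟨u, ⟨hu1, hu2⟩, rfl⟩
    rw [div_le_iff₀ h2] at hu1
    rw [lt_div_iff₀ h2] at hu2
    have hu0 : 0 ≤ u := by
      by_contra hc
      push Not at hc
      have : u * 2 ^ K < 0 := mul_neg_of_neg_of_pos hc h2
      have h3 : (0 : ℝ) ≤ i := by positivity
      linarith
    have hu3 : u < 1 := by
      by_contra hc
      push Not at hc
      have : (1 : ℝ) * 2 ^ K ≤ u * 2 ^ K := by gcongr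
      linarith
    show idx K (u : Tor) = i
    rw [idx_coe K hu0 hu3, Nat.floor_eq_iff (by positivity)]
    constructor <;> linarith
  · intro hx
    obtain ⟨u, hu0, hu1, rfl, hu⟩ := exists_rep x
    have hx' : idx K (u : Tor) = i := hx
    rw [hu K, Nat.floor_eq_iff (by positivity)] at hx'
    refine ⟨u, ⟨?_, ?_⟩, rfl⟩
    · rw [div_le_iff₀ h2]
      linarith [hx'.1]
    · rw [lt_div_iff₀ h2]
      linarith [hx'.2]

/-- the arcs with large index are arcs with small index -/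
theorem arc_mod (K i : ℕ) : arc K i = arc K (i % 2 ^ K) := by
  have h2 : (0 : ℝ) < 2 ^ K := by positivity
  obtain ⟨q, hq⟩ : ∃ q : ℕ, i = i % 2 ^ K + 2 ^ K * q := ⟨i / 2 ^ K, by
    rw [Nat.mod_add_div]⟩
  set j := i % 2 ^ K with hj
  have hz : ((q : ℝ) : Tor) = 0 := by
    rw [AddCircle.coe_eq_zero_iff]
    exact ⟨q, by simp⟩
  have e : (i : ℝ) = j + 2 ^ K * q := by
    rw [hq]
    push_cast
    ring
  ext x
  constructor
  · rintro ⟨u, ⟨hu1, hu2⟩, rfl⟩
    rw [div_le_iff₀ h2, e] at hu1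
    rw [lt_div_iff₀ h2, e] at hu2
    refine ⟨u - q, ⟨?_, ?_⟩, ?_⟩
    · rw [div_le_iff₀ h2]
      linarith
    · rw [lt_div_iff₀ h2]
      linarith
    · show ((u - q : ℝ) : Tor) = u
      rw [AddCircle.coe_sub, hz, sub_zero]
  · rintro ⟨u, ⟨hu1, hu2⟩, rfl⟩
    rw [div_le_iff₀ h2] at hu1
    rw [lt_div_iff₀ h2] at hu2
    refine ⟨u + q, ⟨?_, ?_⟩, ?_⟩
    · rw [div_le_iff₀ h2, e]
      linarith
    · rw [lt_div_iff₀ h2, e]
      linarith
    · show ((u + q : ℝ) : Tor) = u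
      rw [AddCircle.coe_add, hz, add_zero]

theorem sum_arc (μ : Measure Tor) (K : ℕ) (f : ℝ → ℝ) :
    ∑ i ∈ range (2 ^ K), f (μ.real (arc K i)) =
      ∑ i ∈ range (2 ^ K), f (μ.real {x | idx K x = i}) := by
  refine Finset.sum_congr rfl fun i hi => ?_
  rw [arc_eq (Finset.mem_range.1 hi)]

/-- arcs of small mass -/
theorem arc_le_iff (ν : Measure Tor) (K : ℕ) (η : ℝ) :
    (∀ i : ℕ, ν.real (arc K i) ≤ η) ↔ ∀ i < 2 ^ K, ν.real {x | idx K x = i} ≤ η := by
  constructor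
  · intro h i hi
    rw [← arc_eq hi]
    exact h i
  · intro h i
    rw [arc_mod, arc_eq (Nat.mod_lt _ (by positivity))]
    exact h _ (Nat.mod_lt _ (by positivity))

end Helper35.AG
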