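import Mathlib
import Pool.Agent.Helper35.AG.Basic
import Pool.Agent.Helper97.AG.Info

/-!
# Additive growth: bounded information gives overlap
-/

set_option autoImplicit false
open MeasureTheory Filter Topology

namespace Helper35.AG

/-- **Bounded information gives overlap.**
Proof.  `p i = ∫ p y i dν`.  `D y = ∑ i, p y i log (p y i / p i)` (terms with `p y i = 0` are `0`;
`p i = 0` forces `p y i = 0` for almost all `y`), `∫ D dν ≤ C`.  Jensen (`Real.log` concave, weights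
`p y i`): `∑ i, √(p y i p i) ≥ exp (-D y / 2)`, and `∫ exp (-D / 2) ≥ exp (-C / 2) =: a`.
Cauchy-Schwarz: `a ^ 2 ≤ (∑ i, √(p i) ∫ √(p y i) dν) ^ 2 ≤ ∑ i, (∫ √(p y i) dν) ^ 2
= ∫ ∫ ∑ i, √(p y i p y' i)`, and `∑ i, √(u i v i) ≤ √(2 ∑ i, min (u i) (v i))` for probability
vectors.  So `∫ ∫ m(y, y') ≥ a ^ 4 / 2` for `m = ∑ i, min (p y i) (p y' i) ≤ 1`, and
`{m ≥ a ^ 4 / 4}` has measure at least `a ^ 4 / 4 = exp (-2 C) / 4`. -/
theorem info {Ω : Type} [MeasurableSpace Ω] (ν : Measure Ω) [IsProbabilityMeasure ν] {I : Type}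
    [Fintype I] (p : Ω → I → ℝ) (hm : ∀ i, Measurable fun y => p y i) (h0 : ∀ y i, 0 ≤ p y i)
    (h1 : ∀ y, ∑ i, p y i = 1) (C : ℝ)
    (hC : ∑ i, Real.negMulLog (∫ y, p y i ∂ν) - ∫ y, ∑ i, Real.negMulLog (p y i) ∂ν ≤ C) :
    Real.exp (-2 * C) / 4 ≤
      (ν.prod ν).real {z | Real.exp (-2 * C) / 4 ≤ ∑ i, min (p z.1 i) (p z.2 i)} := by
  exact Pool.Agent.Helper97.AG.info_pairs ν p hm h0 h1 C hC

end Helper35.AG
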