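import Mathlib
import Pool.Agent.Helper35.AG.Basic
import Pool.Agent.Helper97.AG.Couple

/-!
# Additive growth: overlap of translates gives couplings
-/

set_option autoImplicit false
open MeasureTheory Filter Topology

namespace Helper35.AG

/-- overlap of the translates of `μ` by `y` and `y'` on the dyadic cells -/
noncomputable def ov (μ : Measure Tor) (K : ℕ) (y y' : Tor) : ℝ :=
  ∑ i ∈ Finset.range (2 ^ K), min (μ.real {x | idx K (x + y) = i}) (μ.real {x | idx K (x + y') = i})

/-- **Lift of the maximal coupling of the cells.**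
Proof.  `A i = {x | idx K (x + y) = i}`, `B i = {x | idx K (x + y') = i}`, `m i` the minimum of the two
masses, `m = ∑ m i ≤ 1`.  `ρ = ∑ i, (m i / (μ (A i) μ (B i))) • (μ.restrict (A i)).prod
(μ.restrict (B i))` (zero if `m i = 0`) has total mass `m`, first marginal
`∑ i, (m i / μ (A i)) • μ.restrict (A i) ≤ μ`, second marginal `≤ μ`, and lives on the pairs `(x, x')`
with `x + y`, `x' + y'` in one cell, so `‖x' - x - (y - y')‖ ≤ 2 ^ (-K)` (`norm_sub_le_of_idx`).  Add
`(1 - m)⁻¹ • (μ - ρ₁).prod (μ - ρ₂)` if `m < 1` (if `m = 1` the marginals are already `μ`). -/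
theorem pop_of_ov {μ : Measure Tor} [IsProbabilityMeasure μ] {K : ℕ} {y y' : Tor} {h : ℝ}
    (H : h ≤ ov μ K y y') : Pop μ h (y - y') (1 / 2 ^ K) := by
  classical
  set c : Tor → Fin (2 ^ K) := fun x => ⟨idx K (x + y), idx_lt K _⟩ with hc
  set c' : Tor → Fin (2 ^ K) := fun x => ⟨idx K (x + y'), idx_lt K _⟩ with hc'
  have hcm : Measurable c := by
    refine measurable_to_countable' fun j => ?_
    have : c ⁻¹' {j} = (fun x => idx K (x + y)) ⁻¹' {(j : ℕ)} := by
      ext x
      simp [hc, Fin.ext_iff]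
    rw [this]
    exact ((measurable_idx K).comp (measurable_id.add_const y)) (measurableSet_singleton _)
  have hcm' : Measurable c' := by
    refine measurable_to_countable' fun j => ?_
    have : c' ⁻¹' {j} = (fun x => idx K (x + y')) ⁻¹' {(j : ℕ)} := by
      ext x
      simp [hc', Fin.ext_iff]
    rw [this]
    exact ((measurable_idx K).comp (measurable_id.add_const y')) (measurableSet_singleton _)
  obtain ⟨π, h1, h2, h3⟩ := Pool.Agent.Helper97.AG.exists_coupling μ μ c hcm c' hcm'
  have hprob : IsProbabilityMeasure π := by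
    refine ⟨?_⟩
    have := congrArg (fun ν : Measure Tor => ν Set.univ) h1
    simp only [Measure.map_apply measurable_fst MeasurableSet.univ, Set.preimage_univ] at this
    rw [this, measure_univ]
  refine ⟨π, hprob, h1, h2, ?_⟩
  have hset : ∀ j : Fin (2 ^ K), c ⁻¹' {j} = {x | idx K (x + y) = (j : ℕ)} := by
    intro j
    ext x
    simp [hc, Fin.ext_iff]
  have hset' : ∀ j : Fin (2 ^ K), c' ⁻¹' {j} = {x | idx K (x + y') = (j : ℕ)} := by
    intro j
    ext x
    simp [hc', Fin.ext_iff]
  have hsub : {z : Tor × Tor | c z.1 = c' z.2} ⊆ {p | ‖p.2 - p.1 - (y - y')‖ ≤ 1 / 2 ^ K} := by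
    rintro ⟨x, x'⟩ hz
    have hz' : c x = c' x' := hz
    have hi : idx K (x + y) = idx K (x' + y') := congrArg Fin.val hz'
    have hn := norm_sub_le_of_idx hi.symm
    show ‖x' - x - (y - y')‖ ≤ 1 / 2 ^ K
    have : x' - x - (y - y') = x' + y' - (x + y) := by abel
    rw [this]
    exact hn
  have h4 : ENNReal.ofReal h ≤ π {z | c z.1 = c' z.2} := by
    refine le_trans ?_ h3
    unfold ov at H
    rw [Finset.sum_range] at H
    refine le_trans (ENNReal.ofReal_le_ofReal H) ?_
    rw [ENNReal.ofReal_sum_of_nonneg fun i _ => le_min measureReal_nonneg measureReal_nonneg]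
    refine Finset.sum_le_sum fun j _ => ?_
    rw [hset j, hset' j, ENNReal.ofReal_min]
    refine min_le_min ?_ ?_
    · exact le_of_eq (ENNReal.ofReal_toReal (measure_ne_top _ _))
    · exact le_of_eq (ENNReal.ofReal_toReal (measure_ne_top _ _))
  have h5 : ENNReal.ofReal h ≤ π {p | ‖p.2 - p.1 - (y - y')‖ ≤ 1 / 2 ^ K} :=
    le_trans h4 (measure_mono hsub)
  rw [measureReal_def]
  exact (ENNReal.ofReal_le_iff_le_toReal (measure_ne_top _ _)).mp h5

end Helper35.AG
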