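import Mathlib
import Pool.Agent.Helper35.AG.Info
import Pool.Agent.Helper35.AG.Lift

/-!
# Additive growth: from entropy to popular differences
-/

set_option autoImplicit false
open MeasureTheory Filter Topology

namespace Helper35.AG

/-- the function `- x log x` is subadditive -/
theorem negMulLog_add_le {a b : ℝ} (ha : 0 ≤ a) (hb : 0 ≤ b) :
    Real.negMulLog (a + b) ≤ Real.negMulLog a + Real.negMulLog b := by
  rcases eq_or_lt_of_le ha with h | ha'
  · rw [← h]
    simp
  rcases eq_or_lt_of_le hb with h | hb'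
  · rw [← h]
    simp
  unfold Real.negMulLog
  have h1 : Real.log a ≤ Real.log (a + b) := Real.log_le_log ha' (by linarith)
  have h2 : Real.log b ≤ Real.log (a + b) := Real.log_le_log hb' (by linarith)
  nlinarith

theorem negMulLog_sum_le {ι : Type*} (s : Finset ι) (m : ι → ℝ) (h0 : ∀ i ∈ s, 0 ≤ m i) :
    Real.negMulLog (∑ i ∈ s, m i) ≤ ∑ i ∈ s, Real.negMulLog (m i) := by
  classical
  induction s using Finset.induction_on with
  | empty => simp
  | insert a s ha ih =>
    rw [Finset.sum_insert ha, Finset.sum_insert ha]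
    have h1 := ih fun i hi => h0 i (Finset.mem_insert_of_mem hi)
    have h2 := negMulLog_add_le (h0 a (Finset.mem_insert_self a s))
      (Finset.sum_nonneg fun i hi => h0 i (Finset.mem_insert_of_mem hi))
    linarith

/-- two masses have entropy at most `log 2` times their sum more than the sum -/
theorem two_le {a b : ℝ} (ha : 0 ≤ a) (hb : 0 ≤ b) :
    Real.negMulLog a + Real.negMulLog b ≤ Real.negMulLog (a + b) + (a + b) * Real.log 2 := by
  have h := Real.concaveOn_negMulLog.2 (show a ∈ Set.Ici (0 : ℝ) from ha)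
    (show b ∈ Set.Ici (0 : ℝ) from hb) (show (0 : ℝ) ≤ 1 / 2 by norm_num)
    (show (0 : ℝ) ≤ 1 / 2 by norm_num) (by norm_num)
  simp only [smul_eq_mul] at h
  have e : 2 * Real.negMulLog (1 / 2 * a + 1 / 2 * b) =
      Real.negMulLog (a + b) + (a + b) * Real.log 2 := by
    rcases eq_or_lt_of_le (add_nonneg ha hb) with h0 | h0
    · have ha0 : a = 0 := by linarith
      have hb0 : b = 0 := by linarith
      rw [ha0, hb0]
      simp
    · unfold Real.negMulLog
      have : 1 / 2 * a + 1 / 2 * b = (a + b) / 2 := by ring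
      rw [this, Real.log_div h0.ne' (by norm_num)]
      ring
  linarith

theorem card_two_le {ι : Type*} [DecidableEq ι] (J : Finset ι) (hJ : J.card ≤ 2) (m : ι → ℝ)
    (h0 : ∀ i ∈ J, 0 ≤ m i) :
    ∑ j ∈ J, Real.negMulLog (m j) ≤
      Real.negMulLog (∑ j ∈ J, m j) + (∑ j ∈ J, m j) * Real.log 2 := by
  have hl : 0 ≤ Real.log 2 := Real.log_nonneg (by norm_num)
  have hcard : J.card = 0 ∨ J.card = 1 ∨ J.card = 2 := by omega
  rcases hcard with h | h | h
  · rw [Finset.card_eq_zero] at h
    rw [h]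
    simp
  · obtain ⟨a, rfl⟩ := Finset.card_eq_one.1 h
    rw [Finset.sum_singleton, Finset.sum_singleton]
    have := mul_nonneg (h0 a (Finset.mem_singleton_self a)) hl
    linarith
  · obtain ⟨a, b, hab, rfl⟩ := Finset.card_eq_two.1 h
    rw [Finset.sum_pair hab, Finset.sum_pair hab]
    exact two_le (h0 a (by simp)) (h0 b (by simp))

/-- Entropies of the marginals of a matrix with at most two nonzero entries in every row. -/
theorem matrix_le {ι κ : Type*} [DecidableEq κ] (s : Finset ι) (t : Finset κ) (m : ι → κ → ℝ)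
    (h0 : ∀ i ∈ s, ∀ j ∈ t, 0 ≤ m i j) (J : ι → Finset κ) (hJ : ∀ i ∈ s, (J i).card ≤ 2)
    (hJt : ∀ i ∈ s, J i ⊆ t) (hz : ∀ i ∈ s, ∀ j ∈ t, j ∉ J i → m i j = 0) :
    ∑ j ∈ t, Real.negMulLog (∑ i ∈ s, m i j) ≤
      ∑ i ∈ s, Real.negMulLog (∑ j ∈ t, m i j) +
        (∑ i ∈ s, ∑ j ∈ t, m i j) * Real.log 2 := by
  have h1 : ∑ j ∈ t, Real.negMulLog (∑ i ∈ s, m i j) ≤
      ∑ j ∈ t, ∑ i ∈ s, Real.negMulLog (m i j) :=
    Finset.sum_le_sum fun j hj => negMulLog_sum_le s _ fun i hi => h0 i hi j hj
  have h2 : ∑ j ∈ t, ∑ i ∈ s, Real.negMulLog (m i j) =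
      ∑ i ∈ s, ∑ j ∈ t, Real.negMulLog (m i j) := Finset.sum_comm
  have h3 : ∀ i ∈ s, ∑ j ∈ t, Real.negMulLog (m i j) ≤
      Real.negMulLog (∑ j ∈ t, m i j) + (∑ j ∈ t, m i j) * Real.log 2 := by
    intro i hi
    have e1 : ∑ j ∈ t, Real.negMulLog (m i j) = ∑ j ∈ J i, Real.negMulLog (m i j) := by
      symm
      refine Finset.sum_subset (hJt i hi) fun j hj hj' => ?_
      rw [hz i hi j hj hj']
      simp
    have e2 : ∑ j ∈ t, m i j = ∑ j ∈ J i, m i j := by
      symm
      exact Finset.sum_subset (hJt i hi) fun j hj hj' => hz i hi j hj hj'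
    rw [e1, e2]
    exact card_two_le (J i) (hJ i hi) _ fun j hj => h0 i hi j (hJt i hi hj)
  calc ∑ j ∈ t, Real.negMulLog (∑ i ∈ s, m i j) ≤ _ := h1
    _ = _ := h2
    _ ≤ ∑ i ∈ s, (Real.negMulLog (∑ j ∈ t, m i j) + (∑ j ∈ t, m i j) * Real.log 2) :=
        Finset.sum_le_sum h3
    _ = _ := by rw [Finset.sum_add_distrib, Finset.sum_mul]

/-- the possible cells of `x` when the cell of `x + y` is `i` -/
def nbr (K m i : ℕ) : Finset ℕ :=
  (Finset.range (2 ^ K)).filter fun j => i = (j + m) % 2 ^ K ∨ i = (j + m + 1) % 2 ^ K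

theorem card_nbr (K m i : ℕ) : (nbr K m i).card ≤ 2 := by
  have hinj : ∀ c : ℕ, ((Finset.range (2 ^ K)).filter fun j : ℕ => i = (j + c) % 2 ^ K).card ≤ 1 := by
    intro c
    rw [Finset.card_le_one]
    intro a ha b hb
    rw [Finset.mem_filter, Finset.mem_range] at ha hb
    have h : (a + c) ≡ (b + c) [MOD 2 ^ K] := ha.2.symm.trans hb.2
    exact Nat.ModEq.eq_of_lt_of_lt (Nat.ModEq.add_right_cancel' c h) ha.1 hb.1
  have hsub : nbr K m i ⊆ ((Finset.range (2 ^ K)).filter fun j : ℕ => i = (j + m) % 2 ^ K) ∪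
      ((Finset.range (2 ^ K)).filter fun j : ℕ => i = (j + (m + 1)) % 2 ^ K) := by
    intro j hj
    unfold nbr at hj
    rw [Finset.mem_filter] at hj
    rw [Finset.mem_union, Finset.mem_filter, Finset.mem_filter]
    rcases hj.2 with h | h
    · exact Or.inl ⟨hj.1, h⟩
    · exact Or.inr ⟨hj.1, h⟩
  refine (Finset.card_le_card hsub).trans ((Finset.card_union_le _ _).trans ?_)
  have := hinj m
  have := hinj (m + 1)
  omega

theorem mem_nbr (K : ℕ) (x y : Tor) : idx K x ∈ nbr K (idx K y) (idx K (x + y)) := by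
  unfold nbr
  rw [Finset.mem_filter, Finset.mem_range]
  exact ⟨idx_lt K x, idx_add K x y⟩

theorem measurableSet_shift (K i : ℕ) (y : Tor) : MeasurableSet {x : Tor | idx K (x + y) = i} :=
  (measurableSet_idx K i).preimage (measurable_add_const y)

theorem sum_shift_inter (μ : Measure Tor) [IsProbabilityMeasure μ] (K : ℕ) (A : Set Tor)
    (hA : MeasurableSet A) (y : Tor) :
    ∑ i ∈ Finset.range (2 ^ K), μ.real (A ∩ {x | idx K (x + y) = i}) = μ.real A := by
  rw [← measureReal_biUnion_finset]
  · congr 1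
    ext x
    simp only [Set.mem_iUnion, Set.mem_inter_iff, Finset.mem_range, exists_prop]
    constructor
    · rintro ⟨i, -, h, -⟩
      exact h
    · intro h
      exact ⟨idx K (x + y), idx_lt K _, h, rfl⟩
  · intro i _ j _ hij
    refine Set.disjoint_left.2 fun x hx hx' => hij ?_
    have h1 : idx K (x + y) = i := hx.2
    have h2 : idx K (x + y) = j := hx'.2
    rw [← h1, ← h2]
  · exact fun i _ => hA.inter (measurableSet_shift K i y)

theorem sum_shift (μ : Measure Tor) [IsProbabilityMeasure μ] (K : ℕ) (y : Tor) :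
    ∑ i ∈ Finset.range (2 ^ K), μ.real {x | idx K (x + y) = i} = 1 := by
  have h := sum_shift_inter μ K Set.univ MeasurableSet.univ y
  simp only [Set.univ_inter] at h
  rw [h]
  exact probReal_univ

theorem sum_cell_inter (μ : Measure Tor) [IsProbabilityMeasure μ] (K : ℕ) (A : Set Tor)
    (hA : MeasurableSet A) :
    ∑ j ∈ Finset.range (2 ^ K), μ.real ({x | idx K x = j} ∩ A) = μ.real A := by
  have h := sum_shift_inter μ K A hA 0
  simp only [add_zero] at h
  rw [← h]
  refine Finset.sum_congr rfl fun i _ => ?_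
  rw [Set.inter_comm]

/-- Translation changes the entropy by at most `log 2`.
Proof.  `H(idx (x)) ≤ H(idx (x + y), idx x) = H(idx (x + y)) + H(idx x | idx (x + y))` and by `idx_add`
`idx x` takes at most two values given `idx (x + y)`. -/
theorem ent_translate (μ : Measure Tor) [IsProbabilityMeasure μ] (K : ℕ) (y : Tor) :
    ent μ K - Real.log 2 ≤
      ∑ i ∈ Finset.range (2 ^ K), Real.negMulLog (μ.real {x | idx K (x + y) = i}) := by
  have h := matrix_le (Finset.range (2 ^ K)) (Finset.range (2 ^ K))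
    (fun i j => μ.real ({x | idx K x = j} ∩ {x | idx K (x + y) = i}))
    (fun i _ j _ => measureReal_nonneg) (fun i => nbr K (idx K y) i)
    (fun i _ => card_nbr K (idx K y) i)
    (fun i _ => by
      unfold nbr
      exact Finset.filter_subset _ _)
    (fun i hi j hj hij => by
      have : ({x : Tor | idx K x = j} ∩ {x | idx K (x + y) = i}) = ∅ := by
        rw [Set.eq_empty_iff_forall_notMem]
        rintro x ⟨h1, h2⟩
        have h1' : idx K x = j := h1
        have h2' : idx K (x + y) = i := h2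
        apply hij
        have h3 := mem_nbr K x y
        rw [h1', h2'] at h3
        exact h3
      show μ.real ({x : Tor | idx K x = j} ∩ {x | idx K (x + y) = i}) = 0
      rw [this]
      simp)
  have e1 : ∀ j ∈ Finset.range (2 ^ K), ∑ i ∈ Finset.range (2 ^ K),
      μ.real ({x | idx K x = j} ∩ {x | idx K (x + y) = i}) = μ.real {x | idx K x = j} := fun j _ =>
    sum_shift_inter μ K _ (measurableSet_idx K j) y
  have e2 : ∀ i ∈ Finset.range (2 ^ K), ∑ j ∈ Finset.range (2 ^ K),
      μ.real ({x | idx K x = j} ∩ {x | idx K (x + y) = i}) = μ.real {x | idx K (x + y) = i} :=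
    fun i _ => sum_cell_inter μ K _ (measurableSet_shift K i y)
  have h' : ∑ j ∈ Finset.range (2 ^ K), Real.negMulLog (μ.real {x | idx K x = j}) ≤
      ∑ i ∈ Finset.range (2 ^ K), Real.negMulLog (μ.real {x | idx K (x + y) = i}) +
        (∑ i ∈ Finset.range (2 ^ K), μ.real {x | idx K (x + y) = i}) * Real.log 2 := by
    refine le_trans (le_of_eq ?_) (h.trans (le_of_eq ?_))
    · exact Finset.sum_congr rfl fun j hj => by rw [e1 j hj]
    · congr 1
      · exact Finset.sum_congr rfl fun i hi => by rw [e2 i hi]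
      · rw [Finset.sum_congr rfl e2]
  rw [sum_shift, one_mul] at h'
  unfold ent
  linarith

/-- the hypothesis of `info` -/
theorem info_hyp (μ ν : Measure Tor) [IsProbabilityMeasure μ] [IsProbabilityMeasure ν] (K : ℕ)
    (C : ℝ) (h : ent (conv μ ν) K ≤ ent μ K + C) :
    ∑ i : Fin (2 ^ K), Real.negMulLog (∫ y, μ.real {x | idx K (x + y) = i} ∂ν) -
      ∫ y, ∑ i : Fin (2 ^ K), Real.negMulLog (μ.real {x | idx K (x + y) = i}) ∂ν ≤
        C + Real.log 2 := by
  have e1 : ∑ i : Fin (2 ^ K), Real.negMulLog (∫ y, μ.real {x | idx K (x + y) = i} ∂ν) =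
      ent (conv μ ν) K := by
    unfold ent
    rw [Finset.sum_range]
    refine Finset.sum_congr rfl fun i _ => ?_
    rw [conv_real μ ν (measurableSet_idx K i)]
    rfl
  have hm : Measurable fun y : Tor =>
      ∑ i : Fin (2 ^ K), Real.negMulLog (μ.real {x | idx K (x + y) = i}) :=
    Finset.measurable_sum _ fun i _ =>
      Real.continuous_negMulLog.measurable.comp (measurable_real μ (measurableSet_idx K i))
  have hb : ∀ y : Tor, ‖∑ i : Fin (2 ^ K), Real.negMulLog (μ.real {x | idx K (x + y) = i})‖ ≤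
      2 ^ K := by
    intro y
    refine (norm_sum_le _ _).trans ?_
    calc ∑ i : Fin (2 ^ K), ‖Real.negMulLog (μ.real {x | idx K (x + y) = i})‖
        ≤ ∑ _i : Fin (2 ^ K), (1 : ℝ) := by
          refine Finset.sum_le_sum fun i _ => ?_
          have h0 : 0 ≤ μ.real {x | idx K (x + y) = i} := measureReal_nonneg
          have h1 : μ.real {x | idx K (x + y) = i} ≤ 1 := measureReal_le_one
          rw [Real.norm_eq_abs, abs_of_nonneg (Real.negMulLog_nonneg h0 h1)]
          have := Real.negMulLog_le_one_sub_self h0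
          linarith
      _ = 2 ^ K := by simp
  have hint : Integrable (fun y : Tor =>
      ∑ i : Fin (2 ^ K), Real.negMulLog (μ.real {x | idx K (x + y) = i})) ν :=
    Integrable.of_bound hm.aestronglyMeasurable (2 ^ K) (Eventually.of_forall hb)
  have h2 : ent μ K - Real.log 2 ≤
      ∫ y, ∑ i : Fin (2 ^ K), Real.negMulLog (μ.real {x | idx K (x + y) = i}) ∂ν := by
    have h3 := integral_mono (μ := ν) (integrable_const (ent μ K - Real.log 2)) hint
      (fun y => by
        have h4 := ent_translate μ K y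
        rw [Finset.sum_range] at h4
        exact h4)
    simpa using h3
  rw [e1]
  linarith

/-- **Bounded growth gives popular differences.** -/
theorem pop_of_growth (μ ν : Measure Tor) [IsProbabilityMeasure μ] [IsProbabilityMeasure ν] (K : ℕ)
    (C : ℝ) (hC : ent (conv μ ν) K ≤ ent μ K + C) :
    ∃ A : Set (Tor × Tor), MeasurableSet A ∧ Real.exp (-2 * C) / 16 ≤ (ν.prod ν).real A ∧
      ∀ p ∈ A, Pop μ (Real.exp (-2 * C) / 16) (p.1 - p.2) (1 / 2 ^ K) := by
  have hmeas : ∀ i : Fin (2 ^ K), Measurable fun y : Tor => μ.real {x | idx K (x + y) = i} :=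
    fun i => measurable_real μ (measurableSet_idx K i)
  have h := info ν (I := Fin (2 ^ K)) (fun y i => μ.real {x | idx K (x + y) = i}) hmeas
    (fun y i => measureReal_nonneg)
    (fun y => by
      have := sum_shift μ K y
      rw [Finset.sum_range] at this
      exact this)
    (C + Real.log 2) (info_hyp μ ν K C hC)
  have e : Real.exp (-2 * (C + Real.log 2)) / 4 = Real.exp (-2 * C) / 16 := by
    have e1 : -2 * (C + Real.log 2) = -2 * C + (-Real.log 2 + -Real.log 2) := by ring
    rw [e1, Real.exp_add, Real.exp_add, Real.exp_neg, Real.exp_log (by norm_num)]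
    ring
  rw [e] at h
  refine ⟨_, ?_, h, ?_⟩
  · refine measurableSet_le measurable_const ?_
    exact Finset.measurable_sum _ fun i _ =>
      ((hmeas i).comp measurable_fst).min ((hmeas i).comp measurable_snd)
  · intro p hp
    apply pop_of_ov
    unfold ov
    rw [Finset.sum_range]
    exact hp

end Helper35.AG
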