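import Mathlib
import Pool.Agent.Helper35.AG.TraceM
import Pool.Agent.Helper40.TMA.Mean
import Pool.Agent.Helper88.AG.Sing

/-!
# The measure of an extreme trace other than the regular one is singular
-/

set_option autoImplicit false

open MeasureTheory Filter Topology Finset Helper17.FU Helper17.FUGroup Helper91.TTT
open Helper58.FH (Bx continuous_Bx)
open scoped ENNReal ComplexConjugate

namespace Helper35.AG

theorem ft_zero_of_le {μ : Measure Tor} [IsProbabilityMeasure μ] (hi : Inv μ)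
    (hE : Helper58.FX.Erg (Helper58.FX.ft μ)) {h : ℝ} (hh : 0 < h)
    (hle : ENNReal.ofReal h • (volume : Measure Tor) ≤ μ) (k : ℕ) (hk : 1 ≤ k) :
    ∫ x, (fourier (k : ℤ) x : ℂ) ∂μ = 0 := by
  have hc0 : Helper58.FX.ft μ k = ∫ x, (fourier (k : ℤ) x : ℂ) ∂μ := rfl
  rw [← hc0]
  set c := Helper58.FX.ft μ k with hc
  by_contra hne
  have hpos : 0 < ‖c‖ := norm_pos_iff.2 hne
  obtain ⟨K, hK⟩ := Pool.Agent.Helper40.TMA.box_averages (μ := μ) hi.two hi.three hE k
    (h * ‖c‖ ^ 2 / 2) (by positivity)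
  have h1 := hK (K + 1) (K + 1) (by omega) (by omega)
  set B : Tor → ℂ := Bx k (K + 1) (K + 1) with hB
  have hBc : Continuous B := continuous_Bx _ _ _
  have hint : ∀ ρ : Measure Tor, IsFiniteMeasure ρ → ∀ f : Tor → ℝ, Continuous f →
      Integrable f ρ := fun ρ _ f hf => hf.integrable_of_hasCompactSupport
        (HasCompactSupport.of_compactSpace _)
  have hintc : ∀ ρ : Measure Tor, IsFiniteMeasure ρ → ∀ f : Tor → ℂ, Continuous f →
      Integrable f ρ := fun ρ _ f hf => hf.integrable_of_hasCompactSupport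
        (HasCompactSupport.of_compactSpace _)
  -- compare the integrals
  have h2 : h * ∫ x, ‖B x - c‖ ^ 2 ∂(volume : Measure Tor) ≤ ∫ x, ‖B x - c‖ ^ 2 ∂μ := by
    have h3 := integral_mono_measure (μ := ENNReal.ofReal h • (volume : Measure Tor)) (ν := μ)
      (f := fun x => ‖B x - c‖ ^ 2) hle (Eventually.of_forall fun x => by positivity)
      (hint μ inferInstance _ ((hBc.sub continuous_const).norm.pow 2))
    rw [integral_smul_measure, ENNReal.toReal_ofReal hh.le, smul_eq_mul] at h3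
    exact h3
  -- the mean of the box average for Lebesgue measure
  have h4 : ∫ x, B x ∂(volume : Measure Tor) = 0 := by
    have e : ∀ x, B x = (((K + 1 : ℕ) : ℂ) * ((K + 1 : ℕ) : ℂ))⁻¹ *
        ∑ s ∈ range (K + 1) ×ˢ range (K + 1),
          (fourier ((k : ℤ) * (2 ^ s.1 * 3 ^ s.2)) x : ℂ) := fun x => rfl
    simp only [e]
    rw [integral_const_mul, integral_finsetSum _ fun s _ =>
      hintc _ inferInstance _ (fourier _).continuous]
    rw [Finset.sum_eq_zero, mul_zero]
    intro s _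
    apply Helper17.TranslM.integral_fourier_vol
    positivity
  have h5 : ‖c‖ ^ 2 ≤ ∫ x, ‖B x - c‖ ^ 2 ∂(volume : Measure Tor) := by
    have e : ∀ x, ‖B x - c‖ ^ 2 = ‖B x‖ ^ 2 - 2 * (B x * conj c).re + ‖c‖ ^ 2 := by
      intro x
      rw [Complex.sq_norm, Complex.sq_norm, Complex.sq_norm, Complex.normSq_sub]
      ring
    have e' : ∀ x, ‖B x - c‖ ^ 2 ≥ ‖c‖ ^ 2 - 2 * (B x * conj c).re := by
      intro x
      have h6 : ‖B x - c‖ ^ 2 = ‖B x‖ ^ 2 - 2 * (B x * conj c).re + ‖c‖ ^ 2 := e x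
      have h7 : 0 ≤ ‖B x‖ ^ 2 := by positivity
      linarith
    calc ‖c‖ ^ 2 = ∫ x, (‖c‖ ^ 2 - 2 * (B x * conj c).re) ∂(volume : Measure Tor) := by
          rw [integral_sub (hint _ inferInstance _ (by fun_prop))
            (hint _ inferInstance _ (by fun_prop)), integral_const, integral_const_mul]
          have h8 : ∫ x, (B x * conj c).re ∂(volume : Measure Tor) = 0 := by
            have h9 := integral_re (μ := (volume : Measure Tor)) (f := fun x => B x * conj c)
              (hintc _ inferInstance _ (by fun_prop))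
            have h10 : ∫ x, B x * conj c ∂(volume : Measure Tor) = 0 := by
              rw [integral_mul_const, h4, zero_mul]
            rw [h10] at h9
            simpa using h9
          rw [h8]
          simp
      _ ≤ _ := by
          refine integral_mono (hint _ inferInstance _ (by fun_prop))
            (hint _ inferInstance _ ((hBc.sub continuous_const).norm.pow 2)) fun x => e' x
  have h6 : h * ‖c‖ ^ 2 ≤ h * ‖c‖ ^ 2 / 2 := by
    calc h * ‖c‖ ^ 2 ≤ h * ∫ x, ‖B x - c‖ ^ 2 ∂(volume : Measure Tor) := by gcongr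
      _ ≤ _ := h2
      _ ≤ _ := h1
  have : 0 < h * ‖c‖ ^ 2 := by positivity
  linarith

variable {s2 s3 t : Equiv.Perm ℚ}

/-- a trace whose measure has vanishing coefficients is the regular one -/
theorem eq_reg_of_zero (h2 : ∀ x : ℚ, s2 x = 2 * x) (h3 : ∀ x : ℚ, s3 x = 3 * x)
    (ht : ∀ x : ℚ, t x = x + 1) {τ : GG s2 s3 t} (hτ : (τ : Equiv.Perm ℚ) = t)
    {φ : GG s2 s3 t → ℂ} (hφ : φ ∈ TR (GG s2 s3 t)) (hz : ∀ m : ℕ, 1 ≤ m → φ (τ ^ m) = 0) :
    φ = Set.indicator ({1} : Set (GG s2 s3 t)) (fun _ => (1 : ℂ)) := by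
  refine eq_indicator h2 h3 ht φ hφ τ hτ fun m hm => ?_
  rcases lt_or_gt_of_ne hm with h | h
  · have h5 := hz (-m).toNat (by omega)
    rw [← zpow_natCast, show (((-m).toNat : ℕ) : ℤ) = -m by omega, zpow_neg,
      pd_herm hφ.2.2] at h5
    simpa using h5
  · have h5 := hz m.toNat (by omega)
    rwa [← zpow_natCast, show ((m.toNat : ℕ) : ℤ) = m by omega] at h5

/-- the measure of an extreme trace other than the regular one does not dominate a multiple of
Lebesgue measure -/
theorem not_le_of_extreme (h2 : ∀ x : ℚ, s2 x = 2 * x) (h3 : ∀ x : ℚ, s3 x = 3 * x)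
    (ht : ∀ x : ℚ, t x = x + 1) {τ : GG s2 s3 t} (hτ : (τ : Equiv.Perm ℚ) = t)
    {φ : GG s2 s3 t → ℂ} (hφ : φ ∈ Set.extremePoints ℝ (TR (GG s2 s3 t)))
    (hΔ : φ ≠ Set.indicator ({1} : Set (GG s2 s3 t)) (fun _ => (1 : ℂ)))
    {μ : Measure Tor} [IsProbabilityMeasure μ]
    (hμ : ∀ n : ℤ, ∫ x, (fourier n x : ℂ) ∂μ = φ (τ ^ n)) {h : ℝ} (hh : 0 < h) :
    ¬ ENNReal.ofReal h • (volume : Measure Tor) ≤ μ := by
  intro hle
  apply hΔ
  refine eq_reg_of_zero h2 h3 ht hτ hφ.1 fun m hm => ?_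
  rw [← zpow_natCast, ← hμ]
  exact ft_zero_of_le (inv_of_trace h2 h3 ht hτ hφ.1 hμ)
    (Pool.Agent.Helper40.TMA.erg_of_extreme h2 h3 ht hτ hφ hμ) hh hle m hm

/-- a trace is the regular one as soon as its measure is Lebesgue measure -/
theorem eq_reg_iff (h2 : ∀ x : ℚ, s2 x = 2 * x) (h3 : ∀ x : ℚ, s3 x = 3 * x)
    (ht : ∀ x : ℚ, t x = x + 1) {τ : GG s2 s3 t} (hτ : (τ : Equiv.Perm ℚ) = t)
    {φ : GG s2 s3 t → ℂ} (hφ : φ ∈ TR (GG s2 s3 t))
    {μ : Measure Tor} [IsProbabilityMeasure μ]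
    (hμ : ∀ n : ℤ, ∫ x, (fourier n x : ℂ) ∂μ = φ (τ ^ n)) :
    φ = Set.indicator ({1} : Set (GG s2 s3 t)) (fun _ => (1 : ℂ)) ↔ μ = volume := by
  constructor
  · intro h0
    apply Helper17.TranslM.eq_of_fourier
    intro n
    by_cases hn : n = 0
    · rw [hn]
      simp
    · rw [hμ, Helper17.TranslM.integral_fourier_vol hn, h0, Set.indicator_of_notMem]
      rw [Set.mem_singleton_iff]
      intro h1
      apply hn
      have h2 : (t ^ n) 0 = 0 := by
        have := congrArg (fun g : GG s2 s3 t => (g : Equiv.Perm ℚ) 0) h1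
        simpa [hτ] using this
      rw [t_zpow ht, zero_add] at h2
      exact_mod_cast h2
  · intro h0
    refine eq_reg_of_zero h2 h3 ht hτ hφ fun m hm => ?_
    rw [← zpow_natCast, ← hμ, h0]
    exact Helper17.TranslM.integral_fourier_vol (by omega)

end Helper35.AG
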