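import Mathlib
import Pool.Agent.Helper35.AG.TraceM
import Pool.Agent.Helper39.SAG.Main
import Pool.Agent.Helper25.AG.Near

/-!
# Sets of traces away from the regular one have infinite additive growth
-/

set_option autoImplicit false

open MeasureTheory Filter Topology Finset Helper17.FU Helper17.FUGroup Helper91.TTT

namespace Helper35.AG

variable {s2 s3 t : Equiv.Perm ℚ}

/-- uniform growth outside of a neighbourhood of the regular trace -/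
theorem growth_of_nhds (h2 : ∀ x : ℚ, s2 x = 2 * x) (h3 : ∀ x : ℚ, s3 x = 3 * x)
    (ht : ∀ x : ℚ, t x = x + 1) {τ : GG s2 s3 t} (hτ : (τ : Equiv.Perm ℚ) = t)
    {U : Set (GG s2 s3 t → ℂ)}
    (hU : U ∈ 𝓝 (Set.indicator ({1} : Set (GG s2 s3 t)) (fun _ => (1 : ℂ)))) (C : ℝ) :
    ∃ η : ℝ, 0 < η ∧ ∀ φ ∈ TR (GG s2 s3 t), φ ∉ U → ∀ (μ ν : Measure Tor)
      [IsProbabilityMeasure μ] [IsProbabilityMeasure ν],
      (∀ n : ℤ, ∫ x, (fourier n x : ℂ) ∂μ = φ (τ ^ n)) → ∀ K : ℕ,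
      (∀ i < 2 ^ K, ν.real {y | idx K y = i} ≤ η) → C < ent (conv μ ν) K - ent μ K := by
  obtain ⟨n, hn⟩ := exists_near h2 h3 ht hτ hU
  obtain ⟨η, hη, H⟩ := Helper39.SAG.sag C (ε := 1 / ((n : ℝ) + 1)) (by positivity)
  refine ⟨η, hη, fun φ hφ hφU μ ν _ _ hμ K hK => ?_⟩
  by_contra hcon
  push Not at hcon
  apply hφU
  refine hn φ hφ fun m hm hmn => ?_
  have h5 := H μ ν K (inv_of_trace h2 h3 ht hτ hφ hμ) hK (by linarith) m hm (by
    rw [one_div_one_div]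
    have : (m : ℝ) ≤ n := by exact_mod_cast hmn
    linarith)
  rw [hμ, zpow_natCast] at h5
  exact h5.le

/-- **Sets of traces with positive, or infinite, additive growth.** -/
theorem tfae_set (h2 : ∀ x : ℚ, s2 x = 2 * x) (h3 : ∀ x : ℚ, s3 x = 3 * x)
    (ht : ∀ x : ℚ, t x = x + 1) {τ : GG s2 s3 t} (hτ : (τ : Equiv.Perm ℚ) = t)
    {S : Set (GG s2 s3 t → ℂ)} (hS : S ⊆ TR (GG s2 s3 t)) :
    List.TFAE [
      Set.indicator ({1} : Set (GG s2 s3 t)) (fun _ => (1 : ℂ)) ∉ closure S,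
      ∀ C : ℝ, ∃ η : ℝ, 0 < η ∧ ∀ φ ∈ S, ∀ μ : Measure Tor, IsProbabilityMeasure μ →
        (∀ n : ℤ, ∫ x, (fourier n x : ℂ) ∂μ = φ (τ ^ n)) → ∀ (ν : Measure Tor) (K : ℕ),
        IsProbabilityMeasure ν → (∀ i < 2 ^ K, ν.real {y | idx K y = i} ≤ η) →
        C < ent (conv μ ν) K - ent μ K,
      ∃ C : ℝ, 0 < C ∧ ∃ η : ℝ, 0 < η ∧ ∀ φ ∈ S, ∀ μ : Measure Tor, IsProbabilityMeasure μ →
        (∀ n : ℤ, ∫ x, (fourier n x : ℂ) ∂μ = φ (τ ^ n)) → ∀ (ν : Measure Tor) (K : ℕ),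
        IsProbabilityMeasure ν → (∀ i < 2 ^ K, ν.real {y | idx K y = i} ≤ η) →
        C < ent (conv μ ν) K - ent μ K] := by
  tfae_have 1 → 2 := by
    intro h0 C
    obtain ⟨η, hη, H⟩ := growth_of_nhds h2 h3 ht hτ (U := (closure S)ᶜ)
      (isClosed_closure.isOpen_compl.mem_nhds h0) C
    exact ⟨η, hη, fun φ hφ μ _ hμ ν K _ hK =>
      H φ (hS hφ) (fun h => h (subset_closure hφ)) μ ν hμ K hK⟩
  tfae_have 2 → 3 := fun h => ⟨1, one_pos, h 1⟩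
  tfae_have 3 → 1 := by
    rintro ⟨C, hC, η, hη, H⟩ hcl
    obtain ⟨n, hn⟩ := Helper25.AG.coeff_of_growth hC hη
    obtain ⟨φ, hφ1, hφ2⟩ := mem_closure_iff_nhds.1 hcl _
      (near_mem (s2 := s2) (s3 := s3) ht hτ n (ε := 1 / ((n : ℝ) + 1)) (by positivity))
    obtain ⟨μ, hμp, hμ, -⟩ := exists_measure h2 h3 ht hτ (hS hφ2)
    obtain ⟨m, hm1, hm2, hm3⟩ := hn μ hμp (fun ν K hνp hν => H φ hφ2 μ hμp hμ ν K hνp hν)
    have h5 := hφ1 m.toNat (by omega) (by omega)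
    rw [← zpow_natCast, show ((m.toNat : ℕ) : ℤ) = m by omega, ← hμ] at h5
    linarith
  tfae_finish

end Helper35.AG
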