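import Mathlib
import Pool.Agent.Helper35.AG.ErgLeb
import Pool.Agent.Helper75.AG.PopUnif

/-!
# Popular differences of traces
-/

set_option autoImplicit false

open MeasureTheory Filter Topology Finset Helper17.FU Helper17.FUGroup Helper91.TTT

namespace Helper35.AG

/-- a measure dominating a multiple of Lebesgue measure has all popular differences -/
theorem pop_of_dom {ρ : Measure Tor} [IsProbabilityMeasure ρ] {h : ℝ} (hh : 0 ≤ h)
    (hle : ENNReal.ofReal h • (volume : Measure Tor) ≤ ρ) (t : Tor) : Pop ρ h t 0 := by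
  have h1 : ENNReal.ofReal h • (volume : Measure Tor) ≤ ρ.map (fun x => x + t) := by
    calc ENNReal.ofReal h • (volume : Measure Tor)
        = (ENNReal.ofReal h • (volume : Measure Tor)).map (fun x => x + t) := by
          rw [Measure.map_smul, (measurePreserving_add_right (volume : Measure Tor) t).map_eq]
      _ ≤ ρ.map (fun x => x + t) := Measure.map_mono hle (by fun_prop)
  have h2 := Pool.Agent.Helper88.AG.pop_of_le ρ t _ hle h1
  have h3 : (ENNReal.ofReal h • (volume : Measure Tor)).real Set.univ = h := by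
    rw [measureReal_def, Measure.smul_apply, AddCircle.measure_univ]
    simp [hh]
  rwa [h3] at h2

/-- dominating a multiple of Lebesgue measure is a closed condition on invariant measures -/
theorem dom_of_tendsto {ι : Type*} {l : Filter ι} [l.NeBot] {ρ : ι → ProbabilityMeasure Tor}
    {ρ0 : ProbabilityMeasure Tor} (hρ : Tendsto ρ l (𝓝 ρ0)) {h : ℝ} (hh : 0 ≤ h)
    (hle : ∀ i, ENNReal.ofReal h • (volume : Measure Tor) ≤ (ρ i : Measure Tor))
    (hi : Inv (ρ0 : Measure Tor)) :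
    ENNReal.ofReal h • (volume : Measure Tor) ≤ (ρ0 : Measure Tor) := by
  refine Pool.Agent.Helper88.AG.le_of_pop _ hi.two.map_eq h fun t => ?_
  exact Helper26.AG.Pop.of_tendsto hρ tendsto_const_nhds tendsto_const_nhds tendsto_const_nhds
    (Eventually.of_forall fun i => pop_of_dom hh (hle i) t).frequently

variable {s2 s3 t : Equiv.Perm ℚ}

/-- traces whose coefficients are near those of a measure dominating a multiple of Lebesgue
measure -/
theorem near_dom (h2 : ∀ x : ℚ, s2 x = 2 * x) (h3 : ∀ x : ℚ, s3 x = 3 * x)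
    (ht : ∀ x : ℚ, t x = x + 1) {τ : GG s2 s3 t} (hτ : (τ : Equiv.Perm ℚ) = t) {h : ℝ}
    (hh : 0 < h) {W : Set (GG s2 s3 t → ℂ)} (hWo : IsOpen W)
    (hW : ∀ ψ ∈ TR (GG s2 s3 t), ∀ ρ : Measure Tor, IsProbabilityMeasure ρ →
      (∀ n : ℤ, ∫ x, (fourier n x : ℂ) ∂ρ = ψ (τ ^ n)) → ENNReal.ofReal h • volume ≤ ρ → ψ ∈ W) :
    ∃ n : ℕ, ∀ φ ∈ TR (GG s2 s3 t), ∀ ρ : Measure Tor, IsProbabilityMeasure ρ →
      ENNReal.ofReal h • volume ≤ ρ →
      (∀ m : ℤ, |(m : ℝ)| ≤ n + 1 → ‖φ (τ ^ m) - ∫ x, (fourier m x : ℂ) ∂ρ‖ < 1 / (n + 1)) →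
      φ ∈ W := by
  by_contra hcon
  push Not at hcon
  choose φ hφ ρ hρp hdom hnear hnot using hcon
  set R : ℕ → ProbabilityMeasure Tor := fun n => ⟨ρ n, hρp n⟩ with hR
  set U : Ultrafilter ℕ := Ultrafilter.of atTop with hU
  have hUle : (U : Filter ℕ) ≤ atTop := Ultrafilter.of_le atTop
  have hK : IsCompact (TR (GG s2 s3 t) ×ˢ (Set.univ : Set (ProbabilityMeasure Tor))) :=
    isCompact_TR.prod isCompact_univ
  obtain ⟨⟨φ0, ρ0⟩, hmem, hlim⟩ := isCompact_iff_ultrafilter_le_nhds.1 hK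
    (U.map fun n => (φ n, R n)) (by
      rw [le_principal_iff, Ultrafilter.coe_map, Filter.mem_map]
      exact Filter.univ_mem' fun n => ⟨hφ n, Set.mem_univ _⟩)
  have hlim' : Tendsto (fun n => (φ n, R n)) U (𝓝 (φ0, ρ0)) := hlim
  have hl1 : Tendsto φ U (𝓝 φ0) := (continuous_fst.tendsto _).comp hlim'
  have hl2 : Tendsto R U (𝓝 ρ0) := (continuous_snd.tendsto _).comp hlim'
  have hφ0 : φ0 ∈ TR (GG s2 s3 t) := hmem.1
  have hnot0 : φ0 ∉ W := by
    have : φ0 ∈ Wᶜ := hWo.isClosed_compl.mem_of_tendsto hl1 (Eventually.of_forall hnot)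
    exact this
  have hcoef : ∀ m : ℤ, ∫ x, (fourier m x : ℂ) ∂(ρ0 : Measure Tor) = φ0 (τ ^ m) := by
    intro m
    have a1 : Tendsto (fun n => φ n (τ ^ m)) U (𝓝 (φ0 (τ ^ m))) :=
      ((continuous_apply (τ ^ m)).tendsto _).comp hl1
    have a2 := Helper75.AG.tendsto_fourier hl2 m
    have a3 : Tendsto (fun n => φ n (τ ^ m) - ∫ x, (fourier m x : ℂ) ∂(R n : Measure Tor)) U
        (𝓝 0) := by
      rw [tendsto_zero_iff_norm_tendsto_zero]
      refine squeeze_zero' (Eventually.of_forall fun n => norm_nonneg _) ?_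
        ((tendsto_one_div_add_atTop_nhds_zero_nat (𝕜 := ℝ)).mono_left hUle)
      have hev : ∀ᶠ n : ℕ in atTop, |(m : ℝ)| ≤ n + 1 := by
        obtain ⟨N, hN⟩ := exists_nat_ge |(m : ℝ)|
        filter_upwards [eventually_ge_atTop N] with n hn
        have : (N : ℝ) ≤ n := by exact_mod_cast hn
        linarith
      exact (hev.filter_mono hUle).mono fun n hn => (hnear n m hn).le
    have a4 := tendsto_nhds_unique a3 (a1.sub a2)
    rw [eq_comm, sub_eq_zero] at a4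
    exact a4.symm
  have hi : Inv (ρ0 : Measure Tor) := inv_of_trace h2 h3 ht hτ hφ0 hcoef
  exact hnot0 (hW φ0 hφ0 ρ0 inferInstance hcoef (dom_of_tendsto hl2 hh.le hdom hi))

/-- **Popular differences of traces.** -/
theorem popular (h2 : ∀ x : ℚ, s2 x = 2 * x) (h3 : ∀ x : ℚ, s3 x = 3 * x)
    (ht : ∀ x : ℚ, t x = x + 1) {τ : GG s2 s3 t} (hτ : (τ : Equiv.Perm ℚ) = t) {h : ℝ}
    (hh : 0 < h) {W : Set (GG s2 s3 t → ℂ)} (hWo : IsOpen W)
    (hW : ∀ ψ ∈ TR (GG s2 s3 t), ∀ ρ : Measure Tor, IsProbabilityMeasure ρ →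
      (∀ n : ℤ, ∫ x, (fourier n x : ℂ) ∂ρ = ψ (τ ^ n)) → ENNReal.ofReal h • volume ≤ ρ → ψ ∈ W) :
    ∃ N : ℕ, 1 ≤ N ∧ ∀ φ ∈ TR (GG s2 s3 t), φ ∉ W → ∀ μ : Measure Tor, IsProbabilityMeasure μ →
      (∀ n : ℤ, ∫ x, (fourier n x : ℂ) ∂μ = φ (τ ^ n)) → ∀ (u : Tor) (r : ℝ), 0 < r →
      Pop μ h u r → ∃ f : Tor, N • f = 0 ∧ ‖u - f‖ ≤ N * r := by
  obtain ⟨n, hn⟩ := near_dom h2 h3 ht hτ hh hWo hW
  obtain ⟨N, hN, H⟩ := Helper75.AG.pop_unif h (1 / ((n : ℝ) + 1)) (by positivity)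
  refine ⟨N, hN, fun φ hφ hφW μ hμp hμ => ?_⟩
  rcases H μ hμp (inv_of_trace h2 h3 ht hτ hφ hμ) with ⟨ρ, hρp, -, hdom, hnear⟩ | h5
  · exfalso
    apply hφW
    refine hn φ hφ ρ hρp hdom fun m hm => ?_
    rw [← hμ]
    exact hnear m (by rwa [one_div_one_div])
  · exact h5

/-- popular differences of one extreme trace -/
theorem popular_extreme (h2 : ∀ x : ℚ, s2 x = 2 * x) (h3 : ∀ x : ℚ, s3 x = 3 * x)
    (ht : ∀ x : ℚ, t x = x + 1) {τ : GG s2 s3 t} (hτ : (τ : Equiv.Perm ℚ) = t)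
    {φ : GG s2 s3 t → ℂ} (hφ : φ ∈ Set.extremePoints ℝ (TR (GG s2 s3 t)))
    (hΔ : φ ≠ Set.indicator ({1} : Set (GG s2 s3 t)) (fun _ => (1 : ℂ)))
    {μ : Measure Tor} [hμp : IsProbabilityMeasure μ]
    (hμ : ∀ n : ℤ, ∫ x, (fourier n x : ℂ) ∂μ = φ (τ ^ n)) {h : ℝ} (hh : 0 < h) :
    ∃ N : ℕ, 1 ≤ N ∧ ∀ (u : Tor) (r : ℝ), 0 < r →
      Pop μ h u r → ∃ f : Tor, N • f = 0 ∧ ‖u - f‖ ≤ N * r := by
  obtain ⟨N, hN, H⟩ := popular h2 h3 ht hτ hh (W := {φ}ᶜ) isClosed_singleton.isOpen_compl (by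
    intro ψ hψ ρ hρp hρ hle h0
    rw [Set.mem_singleton_iff] at h0
    rw [h0] at hρ
    exact not_le_of_extreme h2 h3 ht hτ hφ hΔ hρ hh hle)
  exact ⟨N, hN, H φ hφ.1 (fun h0 => h0 rfl) μ hμp hμ⟩

/-- translates by elements of infinite order are singular -/
theorem sing_extreme (h2 : ∀ x : ℚ, s2 x = 2 * x) (h3 : ∀ x : ℚ, s3 x = 3 * x)
    (ht : ∀ x : ℚ, t x = x + 1) {τ : GG s2 s3 t} (hτ : (τ : Equiv.Perm ℚ) = t)
    {φ : GG s2 s3 t → ℂ} (hφ : φ ∈ Set.extremePoints ℝ (TR (GG s2 s3 t)))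
    (hΔ : φ ≠ Set.indicator ({1} : Set (GG s2 s3 t)) (fun _ => (1 : ℂ)))
    {μ : Measure Tor} [IsProbabilityMeasure μ]
    (hμ : ∀ n : ℤ, ∫ x, (fourier n x : ℂ) ∂μ = φ (τ ^ n)) {u : Tor} (hu : addOrderOf u = 0) :
    Measure.MutuallySingular (μ.map (fun x => x + u)) μ := by
  have hi := inv_of_trace h2 h3 ht hτ hφ.1 hμ
  exact Pool.Agent.Helper88.AG.singular_translate μ hi.two.map_eq hi.three.map_eq
    (fun h hh => not_le_of_extreme h2 h3 ht hτ hφ hΔ hμ hh) u hu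

end Helper35.AG
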