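import Mathlib
import Pool.Agent.Helper17.FUTranslate
import Pool.Agent.Helper35.AG.ErgLeb

/-!
# Rotations of the measure of an extreme trace
-/

set_option autoImplicit false

open MeasureTheory Filter Topology Finset Helper17.FU Helper17.FUGroup Helper91.TTT

namespace Helper35.AG

variable {s2 s3 t : Equiv.Perm ℚ}

/-- the measure of an extreme trace other than the regular one is singular -/
theorem singular_extreme (h2 : ∀ x : ℚ, s2 x = 2 * x) (h3 : ∀ x : ℚ, s3 x = 3 * x)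
    (ht : ∀ x : ℚ, t x = x + 1) {τ : GG s2 s3 t} (hτ : (τ : Equiv.Perm ℚ) = t)
    {φ : GG s2 s3 t → ℂ} (hφ : φ ∈ Set.extremePoints ℝ (TR (GG s2 s3 t)))
    (hΔ : φ ≠ Set.indicator ({1} : Set (GG s2 s3 t)) (fun _ => (1 : ℂ)))
    {μ : Measure Tor} [IsProbabilityMeasure μ]
    (hμ : ∀ n : ℤ, ∫ x, (fourier n x : ℂ) ∂μ = φ (τ ^ n)) :
    Measure.MutuallySingular μ (volume : Measure Tor) := by
  have hi := inv_of_trace h2 h3 ht hτ hφ.1 hμ
  refine Helper17.Herglotz.singular_of_ergodic hi.two hi.three (fun m => ?_) ?_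
  · exact Pool.Agent.Helper40.TMA.erg_of_extreme h2 h3 ht hτ hφ hμ m
  · by_contra hcon
    push Not at hcon
    apply hΔ
    refine eq_indicator h2 h3 ht φ hφ.1 τ hτ ?_
    intro m hm
    rw [← hμ m]
    exact hcon m hm

/-- **Irrational rotations are singular to every measure invariant under some multiplication.** -/
theorem sing_all (h2 : ∀ x : ℚ, s2 x = 2 * x) (h3 : ∀ x : ℚ, s3 x = 3 * x)
    (ht : ∀ x : ℚ, t x = x + 1) {τ : GG s2 s3 t} (hτ : (τ : Equiv.Perm ℚ) = t)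
    {φ : GG s2 s3 t → ℂ} (hφ : φ ∈ Set.extremePoints ℝ (TR (GG s2 s3 t)))
    (hΔ : φ ≠ Set.indicator ({1} : Set (GG s2 s3 t)) (fun _ => (1 : ℂ)))
    {μ : Measure Tor} [IsProbabilityMeasure μ]
    (hμ : ∀ n : ℤ, ∫ x, (fourier n x : ℂ) ∂μ = φ (τ ^ n)) {u : Tor} (hu : addOrderOf u = 0)
    {n : ℕ} (hn : 2 ≤ n) {ρ : Measure Tor} (hρ : IsProbabilityMeasure ρ)
    (hρn : MeasurePreserving (fun x : Tor => n • x) ρ ρ) :
    Measure.MutuallySingular (μ.map (fun x => x + u)) ρ := by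
  have hi := inv_of_trace h2 h3 ht hτ hφ.1 hμ
  have hMI : Helper17.FurstPQ.MI 2 3 := by
    refine ⟨le_rfl, by norm_num, ?_⟩
    exact_mod_cast Helper17.Furst.log_irr
  refine (Helper17.TranslM.main hMI (singular_extreme h2 h3 ht hτ hφ hΔ hμ) hi.two hi.three
    hn).1 u ?_ ρ hρ hρn
  exact addOrderOf_eq_zero_iff'.1 hu

end Helper35.AG
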