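import Mathlib
import Pool.Agent.Helper35.AG.PartA
import Pool.Agent.Helper35.AG.PartC
import Pool.Agent.Helper35.AG.PartD
import Pool.Agent.Helper97.SAG.Atomless
import Pool.Agent.Helper40.LPA.Trace
import Pool.Agent.Helper40.AG.Trace
import Pool.Agent.Helper39.SAG.NotAtomic

/-!
# Additive growth of one extreme trace
-/

set_option autoImplicit false

open MeasureTheory Filter Topology Finset Helper17.FU Helper17.FUGroup Helper91.TTT

namespace Helper35.AG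

/-- the convolution with Lebesgue measure -/
theorem conv_volume (μ : Measure Tor) [IsProbabilityMeasure μ] :
    conv μ (volume : Measure Tor) = volume := by
  ext A hA
  unfold conv
  rw [Measure.map_apply (by fun_prop) hA, Measure.prod_apply ((by fun_prop : Measurable
    fun p : Tor × Tor => p.1 + p.2) hA)]
  have h1 : ∀ x : Tor, (volume : Measure Tor) (Prod.mk x ⁻¹' ((fun p : Tor × Tor => p.1 + p.2) ⁻¹'
      A)) = volume A := by
    intro x
    have e : Prod.mk x ⁻¹' ((fun p : Tor × Tor => p.1 + p.2) ⁻¹' A) = (fun y => x + y) ⁻¹' A := rfl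
    rw [e]
    exact measure_preimage_add volume x A
  simp only [h1, lintegral_const, measure_univ, mul_one]

/-- an element of infinite order -/
theorem exists_order_zero : ∃ t : Tor, ∀ n : ℕ, 1 ≤ n → n • t ≠ 0 := by
  refine ⟨((Real.sqrt 2 : ℝ) : Tor), fun n hn h => ?_⟩
  rw [← AddCircle.coe_nsmul, AddCircle.coe_eq_zero_iff] at h
  obtain ⟨k, hk⟩ := h
  have hirr := irrational_sqrt_two
  apply hirr
  refine ⟨(k : ℚ) / n, ?_⟩
  have hn' : (n : ℝ) ≠ 0 := by positivity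
  push_cast
  rw [div_eq_iff hn']
  simp only [zsmul_eq_mul, mul_one, nsmul_eq_mul] at hk
  linarith

variable {s2 s3 t : Equiv.Perm ℚ}

/-- growth of a trace other than the regular one -/
theorem growth_one (h2 : ∀ x : ℚ, s2 x = 2 * x) (h3 : ∀ x : ℚ, s3 x = 3 * x)
    (ht : ∀ x : ℚ, t x = x + 1) {τ : GG s2 s3 t} (hτ : (τ : Equiv.Perm ℚ) = t)
    {φ : GG s2 s3 t → ℂ} (hφ : φ ∈ TR (GG s2 s3 t))
    (hΔ : φ ≠ Set.indicator ({1} : Set (GG s2 s3 t)) (fun _ => (1 : ℂ)))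
    {μ : Measure Tor} [IsProbabilityMeasure μ]
    (hμ : ∀ n : ℤ, ∫ x, (fourier n x : ℂ) ∂μ = φ (τ ^ n)) (C : ℝ) :
    ∃ η : ℝ, 0 < η ∧ ∀ (ν : Measure Tor) [IsProbabilityMeasure ν] (K : ℕ),
      (∀ i < 2 ^ K, ν.real {y | idx K y = i} ≤ η) → C < ent (conv μ ν) K - ent μ K := by
  obtain ⟨η, hη, H⟩ := growth_of_nhds h2 h3 ht hτ (U := {φ}ᶜ)
    (isClosed_singleton.isOpen_compl.mem_nhds (by
      rw [Set.mem_compl_iff, Set.mem_singleton_iff]
      exact fun h0 => hΔ h0.symm)) C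
  exact ⟨η, hη, fun ν _ K hK => H φ hφ (fun h0 => h0 rfl) μ ν hμ K hK⟩

/-- **One extreme trace of infinite conditional dimension.** -/
theorem tfae_one (h2 : ∀ x : ℚ, s2 x = 2 * x) (h3 : ∀ x : ℚ, s3 x = 3 * x)
    (ht : ∀ x : ℚ, t x = x + 1) {τ : GG s2 s3 t} (hτ : (τ : Equiv.Perm ℚ) = t)
    {φ : GG s2 s3 t → ℂ} (hφ : φ ∈ Set.extremePoints ℝ (TR (GG s2 s3 t)))
    {μ : Measure Tor} [IsProbabilityMeasure μ]
    (hμ : ∀ n : ℤ, ∫ x, (fourier n x : ℂ) ∂μ = φ (τ ^ n)) (hat : ∀ x : Tor, μ {x} = 0) :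
    List.TFAE [
      φ = Set.indicator ({1} : Set (GG s2 s3 t)) (fun _ => (1 : ℂ)),
      ∃ C : ℝ, ∃ᶠ K in atTop, ent (conv μ μ) K - ent μ K ≤ C,
      ∃ ν : Measure Tor, IsProbabilityMeasure ν ∧ (∀ A : Set Tor, A.Countable → ν Aᶜ ≠ 0) ∧
        ∃ C : ℝ, ∃ᶠ K in atTop, ent (conv μ ν) K - ent μ K ≤ C,
      ∃ C : ℝ, ∀ η : ℝ, 0 < η → ∃ (ν : Measure Tor) (K : ℕ), (IsProbabilityMeasure ν ∧
        ∀ i < 2 ^ K, ν.real {y | idx K y = i} ≤ η) ∧ ent (conv μ ν) K - ent μ K ≤ C,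
      ∃ C : ℝ, ∃ᶠ K in atTop, ∃ ν : Measure Tor, IsProbabilityMeasure ν ∧
        ent (conv μ ν) K ≤ (ent μ K + ent ν K) / 2 + C,
      ∃ u : Tor, addOrderOf u = 0 ∧ ∃ (n : ℕ) (ρ : Measure Tor), 2 ≤ n ∧
        IsProbabilityMeasure ρ ∧ MeasurePreserving (fun x : Tor => n • x) ρ ρ ∧
        ¬ Measure.MutuallySingular (μ.map fun x => x + u) ρ,
      ∃ h : ℝ, 0 < h ∧ ∀ N : ℕ, 1 ≤ N → ∃ (u : Tor) (r : ℝ), 0 < r ∧ Pop μ h u r ∧
        ∀ f : Tor, N • f = 0 → N * r < ‖u - f‖] := by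
  have hvol : φ = Set.indicator ({1} : Set (GG s2 s3 t)) (fun _ => (1 : ℂ)) → μ = volume :=
    (eq_reg_iff h2 h3 ht hτ hφ.1 hμ).1
  tfae_have 1 → 2 := by
    intro h0
    refine ⟨0, Frequently.of_forall fun K => ?_⟩
    rw [hvol h0, conv_volume, sub_self]
  tfae_have 2 → 3 := by
    refine fun h => ⟨μ, inferInstance, fun A hA h0 => ?_, h⟩
    have h1 : μ A = 0 := by
      rw [← Set.biUnion_of_singleton A, measure_biUnion_null_iff hA]
      exact fun x _ => hat x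
    have h2' : μ Set.univ = 0 := by
      rw [← Set.union_compl_self A]
      exact measure_union_null h1 h0
    rw [measure_univ] at h2'
    exact one_ne_zero h2'
  tfae_have 3 → 4 := by
    rintro ⟨ν, hνp, hν, C, hC⟩
    obtain ⟨ν', hν'p, hν', a, ha, hle⟩ := Helper39.SAG.not_atomic μ ν hν
    refine ⟨(C + Real.log 2) / a, fun η hη => ?_⟩
    obtain ⟨K0, hK0⟩ := Pool.Agent.Helper97.SAG.small_cells ν' hν' η hη
    obtain ⟨K, hK1, hK2⟩ := (hC.and_eventually (eventually_ge_atTop K0)).exists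
    refine ⟨ν', K, ⟨hν'p, fun i _ => hK0 K hK2 i⟩, ?_⟩
    rw [le_div_iff₀ ha]
    linarith [hle K]
  tfae_have 4 → 1 := by
    rintro ⟨C, hC⟩
    by_contra hΔ
    obtain ⟨η, hη, H⟩ := growth_one h2 h3 ht hτ hφ.1 hΔ hμ C
    obtain ⟨ν, K, ⟨hνp, hν⟩, hle⟩ := hC η hη
    exact absurd (H ν K hν) (not_lt.2 hle)
  tfae_have 1 → 5 := by
    intro h0
    refine ⟨0, Frequently.of_forall fun K => ⟨volume, inferInstance, ?_⟩⟩
    rw [hvol h0, conv_volume]
    linarith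
  tfae_have 5 → 1 := by
    rintro ⟨C, hC⟩
    refine eq_reg_of_zero h2 h3 ht hτ hφ.1 fun m hm => ?_
    rw [← zpow_natCast, ← hμ]
    exact Helper40.AG.zero_of_ruzsa (inv_of_trace h2 h3 ht hτ hφ.1 hμ) hat hC m hm
  tfae_have 1 → 6 := by
    intro h0
    obtain ⟨u, hu⟩ := exists_order_zero
    refine ⟨u, ?_, 2, μ, le_rfl, inferInstance, (inv_of_trace h2 h3 ht hτ hφ.1 hμ).two,
      fun hs => ?_⟩
    · rw [addOrderOf_eq_zero_iff']
      exact fun n hn => hu n hn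
    · rw [hvol h0, (measurePreserving_add_right (volume : Measure Tor) u).map_eq,
        Measure.MutuallySingular.self_iff] at hs
      exact (NeZero.ne (volume : Measure Tor)) hs
  tfae_have 6 → 1 := by
    rintro ⟨u, hu, n, ρ, hn, hρ, hρn, hns⟩
    by_contra hΔ
    exact hns (sing_all h2 h3 ht hτ hφ hΔ hμ hu hn hρ hρn)
  tfae_have 1 → 7 := by
    intro h0
    refine ⟨1, one_pos, fun N hN => ?_⟩
    obtain ⟨u, hu⟩ := exists_order_zero
    have hN' : (0 : ℝ) < N := by exact_mod_cast hN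
    have hpos : 0 < ‖N • u‖ := norm_pos_iff.2 (hu N hN)
    refine ⟨u, ‖N • u‖ / (2 * N ^ 2), by positivity, ?_, fun f hf => ?_⟩
    · refine (pop_of_dom (h := 1) zero_le_one ?_ u).mono le_rfl (by positivity)
      rw [hvol h0]
      simp
    · have h5 : ‖N • u‖ ≤ N * ‖u - f‖ := by
        have e : N • u = N • (u - f) := by rw [smul_sub, hf, sub_zero]
        rw [e]
        exact norm_nsmul_le
      calc (N : ℝ) * (‖N • u‖ / (2 * N ^ 2)) = ‖N • u‖ / N / 2 := by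
            field_simp
        _ < ‖N • u‖ / N := half_lt_self (by positivity)
        _ ≤ ‖u - f‖ := by
            rw [div_le_iff₀ hN']
            linarith
  tfae_have 7 → 1 := by
    rintro ⟨h, hh, H⟩
    by_contra hΔ
    obtain ⟨N, hN, hN2⟩ := popular_extreme h2 h3 ht hτ hφ hΔ hμ hh
    obtain ⟨u, r, hr, hp, hfar⟩ := H N hN
    obtain ⟨f, hf, hle⟩ := hN2 u r hr hp
    exact absurd (hfar f hf) (not_lt.2 hle)
  tfae_finish

end Helper35.AG
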