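import Mathlib
import Pool.Agent.Helper35.AG.PartE
import Pool.Agent.Helper97.CG.Items

/-!
# One extreme trace: the two lists
-/

set_option autoImplicit false

open MeasureTheory Filter Topology Finset Helper17.FU Helper17.FUGroup
open Helper91.TTT (GG)
open Pool.Agent.Helper97.CG (Diffuse)

namespace Helper35.AG

variable {s2 s3 t : Equiv.Perm ℚ}

/-- **One extreme trace.** -/
theorem tfae_ext (h2 : ∀ x : ℚ, s2 x = 2 * x) (h3 : ∀ x : ℚ, s3 x = 3 * x)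
    (ht : ∀ x : ℚ, t x = x + 1) {τ : GG s2 s3 t} (hτ : (τ : Equiv.Perm ℚ) = t)
    {φ : GG s2 s3 t → ℂ} (hφ : φ ∈ Set.extremePoints ℝ (TR (GG s2 s3 t)))
    {μ : Measure Tor} [IsProbabilityMeasure μ]
    (hμ : ∀ n : ℤ, ∫ x, (fourier n x : ℂ) ∂μ = φ (τ ^ n)) :
    List.TFAE [
      φ = Set.indicator ({1} : Set (GG s2 s3 t)) (fun _ => (1 : ℂ)),
      ∃ ν : Measure Tor, IsProbabilityMeasure ν ∧ (∀ A : Set Tor, A.Countable → ν Aᶜ ≠ 0) ∧
        ∃ C : ℝ, ∃ᶠ K in atTop, ent (conv μ ν) K - ent μ K ≤ C,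
      ∃ ψ ∈ TR (GG s2 s3 t), ∃ χ' ∈ TR (GG s2 s3 t), ∃ a : ℝ, 0 < a ∧ a ≤ 1 ∧ Diffuse τ ψ ∧
        φ * ψ = a • φ + (1 - a) • χ',
      ∃ ψ ∈ TR (GG s2 s3 t), ∃ χ ∈ TR (GG s2 s3 t), ∃ χ' ∈ TR (GG s2 s3 t), ∃ a : ℝ,
        0 < a ∧ a ≤ 1 ∧ Diffuse τ ψ ∧ φ * ψ = a • χ + (1 - a) • χ' ∧
        ∃ lam : Measure Tor, IsProbabilityMeasure lam ∧
          (∀ n : ℤ, ∫ x, (fourier n x : ℂ) ∂lam = χ (τ ^ n)) ∧
          ∃ C : ℝ, ∃ᶠ K in atTop, ent lam K - ent μ K ≤ C,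
      ∃ u : Tor, addOrderOf u = 0 ∧ ∃ (n : ℕ) (ρ : Measure Tor), 2 ≤ n ∧
        IsProbabilityMeasure ρ ∧ MeasurePreserving (fun x : Tor => n • x) ρ ρ ∧
        ¬ Measure.MutuallySingular (μ.map fun x => x + u) ρ,
      ∃ h : ℝ, 0 < h ∧ ∀ N : ℕ, 1 ≤ N → ∃ (u : Tor) (r : ℝ), 0 < r ∧ Pop μ h u r ∧
        ∀ f : Tor, N • f = 0 → N * r < ‖u - f‖] := by
  have hvol : φ = Set.indicator ({1} : Set (GG s2 s3 t)) (fun _ => (1 : ℂ)) → μ = volume :=
    (eq_reg_iff h2 h3 ht hτ hφ.1 hμ).1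
  tfae_have 1 → 2 := by
    intro h0
    refine ⟨volume, inferInstance, fun A hA h1 => ?_, 0, Frequently.of_forall fun K => ?_⟩
    · have h2' : (volume : Measure Tor) A = 0 := by
        rw [← Set.biUnion_of_singleton A, measure_biUnion_null_iff hA]
        exact fun x _ => Helper40.AG.volume_singleton x
      have h3' : (volume : Measure Tor) Set.univ = 0 := by
        rw [← Set.union_compl_self A]
        exact measure_union_null h2' h1
      rw [measure_univ] at h3'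
      exact one_ne_zero h3'
    · rw [hvol h0, conv_volume, sub_self]
  tfae_have 2 → 1 := by
    rintro ⟨ν, hνp, hν, C, hC⟩
    by_contra hΔ
    obtain ⟨ν', hν'p, hν', a, ha, hle⟩ := Helper39.SAG.not_atomic μ ν hν
    obtain ⟨η, hη, H⟩ := growth_one h2 h3 ht hτ hφ.1 hΔ hμ ((C + Real.log 2) / a)
    obtain ⟨K0, hK0⟩ := Pool.Agent.Helper97.SAG.small_cells ν' hν' η hη
    obtain ⟨K, hK1, hK2⟩ := (hC.and_eventually (eventually_ge_atTop K0)).exists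
    have h5 := H ν' K (fun i _ => hK0 K hK2 i)
    rw [div_lt_iff₀ ha] at h5
    linarith [hle K]
  tfae_have 1 → 3 := Pool.Agent.Helper97.CG.one_to_seven h2 h3 ht hτ hφ.1
  tfae_have 3 → 4 := Pool.Agent.Helper97.CG.seven_to_eight hφ.1 hμ
  tfae_have 4 → 1 := Pool.Agent.Helper97.CG.eight_to_one h2 h3 ht hτ hφ hμ
  tfae_have 1 → 5 := by
    intro h0
    obtain ⟨u, hu⟩ := exists_order_zero
    refine ⟨u, ?_, 2, μ, le_rfl, inferInstance, (inv_of_trace h2 h3 ht hτ hφ.1 hμ).two,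
      fun hs => ?_⟩
    · rw [addOrderOf_eq_zero_iff']
      exact fun n hn => hu n hn
    · rw [hvol h0, (measurePreserving_add_right (volume : Measure Tor) u).map_eq,
        Measure.MutuallySingular.self_iff] at hs
      exact (NeZero.ne (volume : Measure Tor)) hs
  tfae_have 5 → 1 := by
    rintro ⟨u, hu, n, ρ, hn, hρ, hρn, hns⟩
    by_contra hΔ
    exact hns (sing_all h2 h3 ht hτ hφ hΔ hμ hu hn hρ hρn)
  tfae_have 1 → 6 := by
    intro h0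
    refine ⟨1, one_pos, fun N hN => ?_⟩
    obtain ⟨u, hu⟩ := exists_order_zero
    have hN' : (0 : ℝ) < N := by exact_mod_cast hN
    have hpos : 0 < ‖N • u‖ := norm_pos_iff.2 (hu N hN)
    refine ⟨u, ‖N • u‖ / (2 * N ^ 2), by positivity, ?_, fun f hf => ?_⟩
    · refine (pop_of_dom (h := 1) zero_le_one ?_ u).mono le_rfl (by positivity)
      rw [hvol h0]
      simp
    · have h5 : ‖N • u‖ ≤ N * ‖u - f‖ := by
        have e : N • u = N • (u - f) := by rw [smul_sub, hf, sub_zero]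
        rw [e]
        exact norm_nsmul_le
      calc (N : ℝ) * (‖N • u‖ / (2 * N ^ 2)) = ‖N • u‖ / N / 2 := by
            field_simp
        _ < ‖N • u‖ / N := half_lt_self (by positivity)
        _ ≤ ‖u - f‖ := by
            rw [div_le_iff₀ hN']
            linarith
  tfae_have 6 → 1 := by
    rintro ⟨h, hh, H⟩
    by_contra hΔ
    obtain ⟨N, hN, hN2⟩ := popular_extreme h2 h3 ht hτ hφ hΔ hμ hh
    obtain ⟨u, r, hr, hp, hfar⟩ := H N hN
    obtain ⟨f, hf, hle⟩ := hN2 u r hr hp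
    exact absurd (hfar f hf) (not_lt.2 hle)
  tfae_finish

/-- **One extreme trace of infinite conditional dimension.** -/
theorem tfae_inf (h2 : ∀ x : ℚ, s2 x = 2 * x) (h3 : ∀ x : ℚ, s3 x = 3 * x)
    (ht : ∀ x : ℚ, t x = x + 1) {τ : GG s2 s3 t} (hτ : (τ : Equiv.Perm ℚ) = t)
    {φ : GG s2 s3 t → ℂ} (hφ : φ ∈ Set.extremePoints ℝ (TR (GG s2 s3 t)))
    {μ : Measure Tor} [IsProbabilityMeasure μ]
    (hμ : ∀ n : ℤ, ∫ x, (fourier n x : ℂ) ∂μ = φ (τ ^ n)) (hat : ∀ x : Tor, μ {x} = 0) :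
    List.TFAE [
      φ = Set.indicator ({1} : Set (GG s2 s3 t)) (fun _ => (1 : ℂ)),
      ∃ C : ℝ, ∃ᶠ K in atTop, ent (conv μ μ) K - ent μ K ≤ C,
      ∃ C : ℝ, ∃ᶠ K in atTop, ∃ ν : Measure Tor, IsProbabilityMeasure ν ∧
        ent (conv μ ν) K ≤ (ent μ K + ent ν K) / 2 + C] := by
  have h := tfae_one h2 h3 ht hτ hφ hμ hat
  tfae_have 1 ↔ 2 := h.out 0 1
  tfae_have 1 ↔ 3 := h.out 0 4
  tfae_finish

end Helper35.AG
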