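import Mathlib
import Pool.Agent.Helper40.TMA.Exotic
import Pool.Agent.Helper35.AG.Basic

/-!
# Additive growth of traces

`G` is the group generated by `x ↦ 2x`, `x ↦ 3x`, `x ↦ x + 1`, `τ` is the translation by one.
-/

set_option autoImplicit false
open scoped ComplexOrder InnerProductSpace Topology
open Filter MeasureTheory Finset

namespace Pool.Agent.Results.MP_81910f_an.AdditiveGrowth

/-- normalised positive definite class functions -/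
def traces (G : Subgroup (Equiv.Perm ℚ)) : Set (G → ℂ) :=
  {ψ : G → ℂ | ψ 1 = 1 ∧ (∀ g h : G, ψ (h * g * h⁻¹) = ψ g) ∧
    ∀ (s : Finset G) (c : G → ℂ), 0 ≤ ∑ i ∈ s, ∑ j ∈ s, star (c j) * c i * ψ (j⁻¹ * i)}

/-- the regular trace -/
noncomputable def reg (G : Subgroup (Equiv.Perm ℚ)) : G → ℂ :=
  Set.indicator ({1} : Set G) (fun _ => 1)

/-- the span of the translates of `φ` by the translations in `G`; its dimension is the conditional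
dimension of `φ` -/
def condSpan (G : Subgroup (Equiv.Perm ℚ)) (φ : G → ℂ) : Submodule ℂ (G → ℂ) :=
  Submodule.span ℂ {F : G → ℂ | ∃ n : G,
    (∃ r : ℚ, ∀ x : ℚ, (n : Equiv.Perm ℚ) x = x + r) ∧ F = fun x => φ (n * x)}

/-- `μ` is the probability measure on the circle with Fourier coefficients `φ (τ ^ m)` -/
def IsMeasureOf {G : Subgroup (Equiv.Perm ℚ)} (τ : G) (φ : G → ℂ)
    (μ : Measure (AddCircle (1 : ℝ))) : Prop :=
  IsProbabilityMeasure μ ∧ ∀ m : ℤ, ∫ x, (fourier m x : ℂ) ∂μ = φ (τ ^ m)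

/-- the arc `[i / 2 ^ K, (i + 1) / 2 ^ K)` of the circle -/
def arc (K i : ℕ) : Set (AddCircle (1 : ℝ)) :=
  (fun t : ℝ => (t : AddCircle (1 : ℝ))) '' Set.Ico ((i : ℝ) / 2 ^ K) ((i + 1) / 2 ^ K)

/-- the Shannon entropy of the partition of the circle into the `2 ^ K` dyadic arcs of length
`2 ^ (-K)` -/
noncomputable def shannon (μ : Measure (AddCircle (1 : ℝ))) (K : ℕ) : ℝ :=
  ∑ i ∈ range (2 ^ K), Real.negMulLog (μ.real (arc K i))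

/-- the entropy gained at scale `2 ^ (-K)` by adding an independent variable of law `ν` to a
variable of law `μ` -/
noncomputable def growth (μ ν : Measure (AddCircle (1 : ℝ))) (K : ℕ) : ℝ :=
  shannon (μ.conv ν) K - shannon μ K

/-- `ν` is a probability measure giving mass at most `η` to each dyadic arc of length `2 ^ (-K)` -/
def Spread (η : ℝ) (K : ℕ) (ν : Measure (AddCircle (1 : ℝ))) : Prop :=
  IsProbabilityMeasure ν ∧ ∀ i : ℕ, ν.real (arc K i) ≤ η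

/-- two variables of law `μ` can be coupled so that, with probability at least `h`, their difference
is within `r` of `t` -/
def Popular (μ : Measure (AddCircle (1 : ℝ))) (h : ℝ) (t : AddCircle (1 : ℝ)) (r : ℝ) : Prop :=
  ∃ π : Measure (AddCircle (1 : ℝ) × AddCircle (1 : ℝ)), IsProbabilityMeasure π ∧
    π.map Prod.fst = μ ∧ π.map Prod.snd = μ ∧ h ≤ π.real {p | ‖p.2 - p.1 - t‖ ≤ r}

/-- **Additive growth.** -/
theorem result :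
  ∀ (s2 s3 t : Equiv.Perm ℚ), (∀ x : ℚ, s2 x = 2 * x) → (∀ x : ℚ, s3 x = 3 * x) →
  (∀ x : ℚ, t x = x + 1) →
  ∀ (G : Subgroup (Equiv.Perm ℚ)), G = Subgroup.closure {s2, s3, t} →
  ∀ τ : G, (τ : Equiv.Perm ℚ) = t →
  (∀ S : Set (G → ℂ), S ⊆ traces G → List.TFAE [
    reg G ∉ closure S,
    ∀ C : ℝ, ∃ η : ℝ, 0 < η ∧ ∀ φ ∈ S, ∀ μ, IsMeasureOf τ φ μ → ∀ ν K, Spread η K ν →
      C < growth μ ν K,
    ∃ C : ℝ, 0 < C ∧ ∃ η : ℝ, 0 < η ∧ ∀ φ ∈ S, ∀ μ, IsMeasureOf τ φ μ → ∀ ν K, Spread η K ν →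
      C < growth μ ν K]) ∧
  (∀ C : ℝ, ∀ U ∈ 𝓝 (reg G), ∃ D : ℕ, ∀ φ ∈ Set.extremePoints ℝ (traces G), ∀ ψ ∈ traces G,
    FiniteDimensional ℂ (condSpan G φ) → FiniteDimensional ℂ (condSpan G ψ) →
    D < Module.finrank ℂ (condSpan G ψ) →
    (Module.finrank ℂ (condSpan G (φ * ψ)) : ℝ) ≤ C * Module.finrank ℂ (condSpan G φ) → φ ∈ U) ∧
  (∀ U ∈ 𝓝 (reg G), ∃ h : ℝ, h < 1 ∧ ∃ N : ℕ, 1 ≤ N ∧ ∀ φ ∈ traces G, φ ∉ U →
    ∀ μ, IsMeasureOf τ φ μ → ∀ t r, 0 < r → Popular μ h t r → ‖N • t‖ ≤ N * r) ∧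
  (∀ φ ∈ Set.extremePoints ℝ (traces G), φ ≠ reg G → ∀ μ, IsMeasureOf τ φ μ →
    (∀ t : AddCircle (1 : ℝ), addOrderOf t = 0 → (μ.map fun x => x + t) ⟂ₘ μ) ∧
    ∀ h : ℝ, 0 < h → ∃ N : ℕ, 1 ≤ N ∧ ∀ t r, 0 < r → Popular μ h t r → ‖N • t‖ ≤ N * r) ∧
  ∀ φ ∈ Set.extremePoints ℝ (traces G), ¬ FiniteDimensional ℂ (condSpan G φ) →
  ∃ μ : Measure (AddCircle (1 : ℝ)), IsMeasureOf τ φ μ ∧ List.TFAE [
    φ = reg G,
    ∃ C : ℝ, ∃ᶠ K in atTop, growth μ μ K ≤ C,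
    ∃ ν, IsProbabilityMeasure ν ∧ (∀ x, ν {x} = 0) ∧ ∃ C : ℝ, ∃ᶠ K in atTop, growth μ ν K ≤ C,
    ∃ C : ℝ, ∀ η : ℝ, 0 < η → ∃ ν K, Spread η K ν ∧ growth μ ν K ≤ C,
    ∃ t : AddCircle (1 : ℝ), addOrderOf t = 0 ∧ ¬ ((μ.map fun x => x + t) ⟂ₘ μ),
    ∃ h : ℝ, 0 < h ∧ ∀ N : ℕ, 1 ≤ N → ∃ t r, 0 < r ∧ Popular μ h t r ∧ N * r < ‖N • t‖] := by
  sorry

end Pool.Agent.Results.MP_81910f_an.AdditiveGrowth
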